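import Pool.Agent.Helper5.RO.Defs

/-!
# Project UN (MP_a41896_nt): definitions

Vojta's inequality (`D = 0`) for arbitrary centres of codimension larger than the rank, in products of
powers of elliptic curves.  The paper proof is in `PAPER.md` of this folder.
-/

namespace Pool.Agent.Helper5.UN

open WeierstrassCurve Height Height.AdmissibleAbsValues MvPolynomial
open Pool.Agent.Helper29.BL Pool.Agent.Helper5.RO

noncomputable section

/-! ## Homogeneous values, charts, multiples -/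

section alg

variable {R S : Type} [CommRing R] [CommRing S]

/-- The value at `y = ((X_i, Z_i))_i` of the multihomogenization of `f`, of degree `E i` in the pair
`(X_i, Z_i)`: `Σ_m f_m ∏_i X_i^(m_i) Z_i^(E_i - m_i)`. -/
def hv {σ : Type} [Fintype σ] (φ : R →+* S) (E : σ → ℕ) (f : MvPolynomial σ R)
    (y : σ → Fin 2 → S) : S :=
  ∑ m ∈ f.support, φ (coeff m f) * ∏ i, (y i 0 ^ m i * y i 1 ^ (E i - m i))

/-- The index set `{-1, 0, 1}^n`. -/
abbrev EE (n : ℕ) : Type := Fin n → SignType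

/-- The integer vector `e`. -/
def vec {n : ℕ} (e : EE n) : Fin n → ℤ := fun i => (e i : ℤ)

/-- The signs of an integer vector (`vec (sg m) = m` if `|m i| ≤ 1`). -/
def sg {n : ℕ} (m : Fin n → ℤ) : EE n := fun i => SignType.sign (m i)

/-- The unit vectors. -/
def un {n : ℕ} (i : Fin n) : EE n := Pi.single i 1

/-- `Σ_i m_i z_i` -/
def vz {G : Type} [AddCommGroup G] {n : ℕ} (m : Fin n → ℤ) (z : Fin n → G) : G := ∑ i, m i • z i

/-- The pair `(ζ_e, 1)` or `(1, ζ_e)`, according to the chart `a`. -/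
def pr {n : ℕ} (a : EE n → Bool) (ζ : EE n → S) (e : EE n) : Fin 2 → S :=
  if a e then ![ζ e, 1] else ![1, ζ e]

/-- Differential addition: if `P, Q` are the pairs of two points and `r = (X, 1)` (`b = true`) or
`r = (1, Z)` (`b = false`) is the pair of their difference, this is the pair of their sum, up to a
factor: with `(s, t, u) = asm (sy P Q)` it is `(t - u X, u)`, or `(s, t - s Z)`. -/
def dad (φ : R →+* S) (W : WeierstrassCurve R) (P Q : Fin 2 → S) (b : Bool) (r : Fin 2 → S) :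
    Fin 2 → S :=
  if b then ![asm φ W (sy P Q) 1 - asm φ W (sy P Q) 2 * r 0, asm φ W (sy P Q) 2]
  else ![asm φ W (sy P Q) 0, asm φ W (sy P Q) 1 - asm φ W (sy P Q) 0 * r 1]

/-- The pair of the point `Σ m_i z_i`, `|m_i| ≤ 2^k`, as polynomials in the chart coordinates `ζ_e` of
the points `Σ e_i z_i`, `e ∈ {-1,0,1}^n`: with `m' = ⌊m/2⌋`, `m'' = m - m'`, `e = m'' - m' ∈ {0,1}^n` it is
computed from the pairs of `m' z`, `m'' z` and `e z`. -/
def rp (φ : R →+* S) (W : WeierstrassCurve R) {n : ℕ} (a : EE n → Bool) (ζ : EE n → S) :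
    ℕ → (Fin n → ℤ) → Fin 2 → S
  | 0, m => pr a ζ (sg m)
  | (k + 1), m => dad φ W (rp φ W a ζ k fun i => m i / 2) (rp φ W a ζ k fun i => m i - m i / 2)
      (a (sg fun i => m i - m i / 2 - m i / 2)) (pr a ζ (sg fun i => m i - m i / 2 - m i / 2))

/-- The level of the vector `m`: the smallest `k` with `|m_i| ≤ 2^k` for all `i`. -/
def lv {n : ℕ} (m : Fin n → ℤ) : ℕ := Nat.clog 2 (Finset.univ.sup fun i => (m i).natAbs)

/-- The relations between the pairs of the points `Σ e_i z_i`. -/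
structure RLP {n : ℕ} (φ : R →+* S) (W : WeierstrassCurve R) (a : EE n → Bool) (ζ : EE n → S) :
    Prop where
  zero : pr a ζ 0 1 = 0
  quad : ∀ e e' e'' : EE n, (∀ i, vec e'' i = vec e i + vec e' i) →
    asm φ W (sy (pr a ζ e) (pr a ζ e')) 0 * pr a ζ e'' 1 ^ 2 -
      asm φ W (sy (pr a ζ e) (pr a ζ e')) 1 * (pr a ζ e'' 0 * pr a ζ e'' 1) +
      asm φ W (sy (pr a ζ e) (pr a ζ e')) 2 * pr a ζ e'' 0 ^ 2 = 0
  mnr : ∀ e e' e₁ e₂ : EE n, (∀ i, vec e₁ i = vec e i + vec e' i) →
    (∀ i, vec e₂ i = vec e i - vec e' i) → ∀ i j,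
    asm φ W (sy (pr a ζ e) (pr a ζ e')) i * sy (pr a ζ e₁) (pr a ζ e₂) j =
      asm φ W (sy (pr a ζ e) (pr a ζ e')) j * sy (pr a ζ e₁) (pr a ζ e₂) i

end alg

/-- The chart coordinates `ζ` belong to the point `z`: the pair of `e` is proportional to the pair
`xRep` of `Σ e_i z_i`, for all `e`. -/
def TP {F : Type} [Field F] [DecidableEq F] {W : Affine F} {n : ℕ} (a : EE n → Bool)
    (ζ : EE n → F) (z : Fin n → W.Point) : Prop :=
  ∀ e, ∃ σ : F, σ ≠ 0 ∧ pr a ζ e = σ • (vz (vec e) z).xRep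

section blocks

variable {K : Type} [Field K] {B : Type}

/-- The index set of all coordinates. -/
abbrev IX (n : B → ℕ) : Type := Σ t, Fin (n t)

/-- The index set of all chart coordinates. -/
abbrev VX (n : B → ℕ) : Type := Σ t, EE (n t)

/-- The ideal of the polynomials in the chart coordinates which vanish at all points (over all
extension fields) of `∏ W_t^(n_t)`. -/
def OO (W : B → Affine K) (n : B → ℕ) (a : ∀ t, EE (n t) → Bool) : Ideal (MvPolynomial (VX n) K) where
  carrier := {g | ∀ (Ω : Type) [Field Ω] [DecidableEq Ω] [Algebra K Ω] (W' : B → Affine Ω),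
    (∀ t, W' t = (W t).map (algebraMap K Ω)) → ∀ (z : ∀ t, Fin (n t) → (W' t).Point)
    (ζ : VX n → Ω), (∀ t, TP (a t) (fun e => ζ ⟨t, e⟩) (z t)) → aeval ζ g = 0}
  add_mem' := fun {g h} hg hh Ω _ _ _ W' hW' z ζ hT => by
    rw [map_add, hg Ω W' hW' z ζ hT, hh Ω W' hW' z ζ hT, add_zero]
  zero_mem' := fun Ω _ _ _ W' hW' z ζ hT => by rw [map_zero]
  smul_mem' := fun c g hg Ω _ _ _ W' hW' z ζ hT => by
    rw [smul_eq_mul, map_mul, hg Ω W' hW' z ζ hT, mul_zero]

/-- The value of `f_j` at the pairs of the coordinates, in the chart `a`. -/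
def ft (n : B → ℕ) [Fintype B] (a : ∀ t, EE (n t) → Bool) (D : ℕ) (f : MvPolynomial (IX n) K) :
    MvPolynomial (VX n) K :=
  hv C (fun _ => D) f fun i => pr (a i.1) (fun e => X ⟨i.1, e⟩) (un i.2)

/-- The ideal of the centre in the chart `a`. -/
def IA (W : B → Affine K) (n : B → ℕ) [Fintype B] (a : ∀ t, EE (n t) → Bool) (D : ℕ) {ι : Type}
    (f : ι → MvPolynomial (IX n) K) : Ideal (MvPolynomial (VX n) K) :=
  OO W n a ⊔ Ideal.span (Set.range fun j => ft n a D (f j))

/-- The value of `F`, of degree `E i` in the variable `i`, at the pairs of the points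
`Σ_k m_(i,k) z_k`, in the chart `a`. -/
def Ft (W : B → Affine K) (n : B → ℕ) [Fintype B] (a : ∀ t, EE (n t) → Bool) (E : IX n → ℕ)
    (m : ∀ t, Fin (n t) → Fin (n t) → ℤ) (F : MvPolynomial (IX n) K) : MvPolynomial (VX n) K :=
  hv C E F fun i => rp C (W i.1) (a i.1) (fun e => X ⟨i.1, e⟩) (lv (m i.1 i.2)) (m i.1 i.2)

/-- The common zeros of the `f_j` in `(ℙ¹)^σ` have codimension `> s`: their coordinates are algebraic
over a field `K(T)` with `|T| + s < |σ|`. -/
def CodimGT {σ ι : Type} [Fintype σ] (D : ℕ) (f : ι → MvPolynomial σ K) (s : ℕ) : Prop :=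
  ∀ (Ω : Type) [Field Ω] [Algebra K Ω] (y : σ → Fin 2 → Ω), (∀ i, y i 1 = 1 ∨ y i = ![1, 0]) →
    (∀ j, hv (algebraMap K Ω) (fun _ => D) (f j) y = 0) →
    ∃ T : Finset Ω, T.card + s < Fintype.card σ ∧
      ∀ i, IsAlgebraic (IntermediateField.adjoin K (T : Set Ω)) (y i 0)

/-- The height of `x` with respect to the centre: `Σ_v log⁺ (∏_i max(1,|x_i|_v)^D / max_j |f_j(x)|_v)`. -/
def cH [AdmissibleAbsValues K] {σ ι : Type} [Fintype σ] (D : ℕ) (f : ι → MvPolynomial σ K)
    (x : σ → K) : ℝ :=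
  PS fun v => Real.posLog ((∏ i, Mv v (x i)) ^ D / ⨆ j, v (eval x (f j)))

end blocks

end

end Pool.Agent.Helper5.UN
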