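import Pool.Agent.Helper43.UN.GoalsZ
import Pool.Agent.Helper56.UW.Z10at

/-! Packet UN Z10an: starts and pending skips (adapted from Helper56/UW/Z10at.lean). -/

set_option autoImplicit false

namespace Pool.Agent.Helper5.UN

open Finset
open Pool.Agent.Helper18.EW (Gr Ex kk Pau)
open Pool.Agent.Helper18.UW (Par4)
open Pool.Agent.Helper43.UN
open Pool.Agent.Helper56.UW (parB)
open Pool.Agent.Helper43.Hw (T na va lz Play aa ac sc oo sk U Dd Sd Pn nx bb np two_T)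
open Pool.Agent.Helper43.Gm (Pri)

theorem part1 (h8 : GoalZ8n) {μ R N K b l Lg q βp βm s : ℕ} {W : ℤ} {L o k D S n κ x : ℕ → ℕ} {y : ℕ}
    (hz : Zon μ R N K b l Lg q βp βm s W L o k D S n κ x y) :
    ∀ z, s ≤ z → z ≤ y → l * (κ y - κ z) ≤ 84 * (R - 1 - z) + 3 * K * l := by
  intro z hsz hzy
  obtain ⟨b1, K1, bK, KL, K33, μ1⟩ := parB hz.par
  have hl := hz.par.l1
  have hR := hz.par.R1
  have hy2 := hz.y2
  rcases hzy.eq_or_lt with rfl | hlt
  · rw [Nat.sub_self, Nat.mul_zero]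
    exact Nat.zero_le _
  have hJs := hz.ext.Js
  have hXμ : R - 1 - z ≤ μ := by omega
  have hnp := hz.hnp (R - 1 - z) hXμ
  have hih := hz.ih z hsz hlt
  have hoo : N - κ z + βm ≤ βp + o z + oo μ R κ x z := by
    have h1 : 2 ^ 14 * l * (N - κ z + βm) ≤ 2 ^ 14 * l * (βp + o z + oo μ R κ x z) := by omega
    exact Nat.le_of_mul_le_mul_left h1 (by positivity)
  have h := h8 μ R N K b βp βm s W L o k D S n κ x y z μ1 (by omega) hz.ext hz.play hz.ex hy2 hsz hzy hoo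
  have hn := hz.ext.nK (R - 1 - z)
  have hw3 := hz.w3
  set X := R - 1 - z with hX
  set w := R - 1 - y with hw
  have hwX : w ≤ X := by omega
  have hw1 : 1 ≤ w := by omega
  set P := np μ R N κ x X with hP
  set Δ := κ y - κ z with hΔ
  have hT2 : 2 * T w = w * (w + 1) := two_T w
  have hTw : 0 < T w := by nlinarith
  -- everything in ℤ
  have hT2' : (2 : ℤ) * (T w : ℤ) = (w : ℤ) * ((w : ℤ) + 1) := by exact_mod_cast hT2
  have hTw' : (0 : ℤ) < (T w : ℤ) := by exact_mod_cast hTw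
  have hl' : (1 : ℤ) ≤ (l : ℤ) := by exact_mod_cast hl
  have hnp' : (l : ℤ) * (P : ℤ) ≤ 160 * (X : ℤ) + 3 * l := by exact_mod_cast hnp
  have hn' : (n X : ℤ) ≤ K := by exact_mod_cast hn
  have hbK' : (b : ℤ) ≤ K := by exact_mod_cast bK
  have hK1' : (1 : ℤ) ≤ K := by exact_mod_cast K1
  have hw1' : (1 : ℤ) ≤ (w : ℤ) := by exact_mod_cast hw1
  have hwX' : (w : ℤ) ≤ (X : ℤ) := by exact_mod_cast hwX
  have hw3' : 2 ^ 14 * (l : ℤ) * |W| ≤ (w : ℤ) ^ 2 * ((b : ℤ) * l + w) := by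
    push_cast at hw3
    exact hw3
  have hWabs : W ≤ |W| := le_abs_self W
  have s1 : (l : ℤ) * (2 * (T w : ℤ) * (Δ : ℤ)) ≤ l * ((T w : ℤ) * ((P : ℤ) + n X) + |W|) := by
    refine mul_le_mul_of_nonneg_left (le_trans h ?_) (by linarith)
    linarith
  have s2 : (l : ℤ) * ((T w : ℤ) * ((P : ℤ) + n X)) ≤ (T w : ℤ) * (160 * X + 3 * l + K * l) := by
    have e1 : (l : ℤ) * ((T w : ℤ) * ((P : ℤ) + n X)) = (T w : ℤ) * (l * P + n X * l) := by ring
    rw [e1]
    refine mul_le_mul_of_nonneg_left ?_ hTw'.le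
    have : (n X : ℤ) * l ≤ K * l := mul_le_mul_of_nonneg_right hn' (by linarith)
    linarith
  have s3 : 2 ^ 14 * ((l : ℤ) * |W|) ≤ (2 * (T w : ℤ)) * ((K : ℤ) * l + X) := by
    have e1 : 2 ^ 14 * ((l : ℤ) * |W|) = 2 ^ 14 * (l : ℤ) * |W| := by ring
    rw [e1]
    refine le_trans hw3' ?_
    rw [hT2']
    refine mul_le_mul ?_ ?_ (by positivity) (by positivity)
    · nlinarith
    · have : (b : ℤ) * l ≤ K * l := mul_le_mul_of_nonneg_right hbK' (by linarith)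
      linarith
  have s4 : (T w : ℤ) * (2 ^ 15 * ((l : ℤ) * Δ)) ≤
      (T w : ℤ) * (2 ^ 14 * (160 * X + 3 * l + K * l) + 2 * ((K : ℤ) * l + X)) := by
    have e1 : (T w : ℤ) * (2 ^ 15 * ((l : ℤ) * Δ)) = 2 ^ 14 * ((l : ℤ) * (2 * (T w : ℤ) * (Δ : ℤ))) := by
      ring
    rw [e1]
    calc 2 ^ 14 * ((l : ℤ) * (2 * (T w : ℤ) * (Δ : ℤ)))
        ≤ 2 ^ 14 * (l * ((T w : ℤ) * ((P : ℤ) + n X) + |W|)) :=
          mul_le_mul_of_nonneg_left s1 (by norm_num)
      _ = 2 ^ 14 * ((l : ℤ) * ((T w : ℤ) * ((P : ℤ) + n X))) + 2 ^ 14 * ((l : ℤ) * |W|) := by ring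
      _ ≤ 2 ^ 14 * ((T w : ℤ) * (160 * X + 3 * l + K * l)) + (2 * (T w : ℤ)) * ((K : ℤ) * l + X) :=
          add_le_add (mul_le_mul_of_nonneg_left s2 (by norm_num)) s3
      _ = _ := by ring
  have s5 := le_of_mul_le_mul_left s4 hTw'
  have hlK : (l : ℤ) ≤ K * l := by
    calc (l : ℤ) = 1 * l := by ring
      _ ≤ K * l := mul_le_mul_of_nonneg_right hK1' (by linarith)
  have hX0 : (0 : ℤ) ≤ X := by positivity
  have hl0 : (0 : ℤ) ≤ (K : ℤ) * l := by positivity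
  have s6 : (l : ℤ) * Δ ≤ 84 * X + 3 * (K * l) := by nlinarith
  have s7 : l * Δ ≤ 84 * X + 3 * (K * l) := by exact_mod_cast s6
  calc l * Δ ≤ 84 * X + 3 * (K * l) := s7
    _ = 84 * X + 3 * K * l := by ring

theorem goalZ10an (h8 : GoalZ8n) (h9 : GoalZ9n) : GoalZ10an := by
  intro μ R N K b l Lg q βp βm s W L o k D S n κ x y hz
  have hp1 := part1 h8 hz
  obtain ⟨b1, K1, bK, KL, K33, μ1⟩ := parB hz.par
  have hl := hz.par.l1
  have hR := hz.par.R1
  have hL := hz.par.hL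
  have hy2 := hz.y2
  have hJs := hz.ext.Js
  have hsy := hz.sy
  -- the second statement
  have hs := hp1 s le_rfl hsy
  have hRs : R - 1 - s ≤ μ := by omega
  have hs2 : l * (κ y - κ s) ≤ 84 * μ + 3 * K * l := by omega
  have hlt : κ y - κ s < 2 ^ Lg := by
    have h1 : l * (κ y - κ s) < l * 2 ^ Lg := by
      rw [Nat.mul_comm l (2 ^ Lg)]
      have h3 : 3 * K * l = 3 * (K * l) := by ring
      omega
    exact Nat.lt_of_mul_lt_mul_left h1
  have hq := h9 μ R N K b l Lg βp βm s y W L o k D S n κ x μ1 (by omega) hl b1 K1 KL hz.ext hz.play hz.ex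
    hsy hy2 hz.pau hz.ih hp1 hlt
  set c := ((range y).filter (fun t => R - 1 - μ < t ∧ κ t < κ y ∧ 0 < x t ∧ 0 < U μ R x t ∧
    U μ R x t ≤ R - 1 - y)).card with hcdef
  have hp2 : l * c ≤ 84 * μ + 3 * K * l + 200 * 2 ^ 14 * l * (R - 1 - y) * Lg := by
    calc l * c ≤ l * ((κ y - κ s) + 200 * 2 ^ 14 * (R - 1 - y) * Lg) := Nat.mul_le_mul_left l hq
      _ = l * (κ y - κ s) + 200 * 2 ^ 14 * l * (R - 1 - y) * Lg := by ring
      _ ≤ (84 * μ + 3 * K * l) + 200 * 2 ^ 14 * l * (R - 1 - y) * Lg :=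
          Nat.add_le_add_right hs2 _
  refine ⟨hp1, hp2, ?_⟩
  set w := R - 1 - y with hw
  have hSd : Sd μ R κ x y ≤ w * (w + c) := by
    have e1 : Sd μ R κ x y = ∑ t ∈ ((range y).filter (fun t => κ t < κ y ∧ 0 < x t ∧
        U μ R x t ≤ R - 1 - y)).filter (fun t => 0 < U μ R x t), U μ R x t := by
      unfold Sd
      exact (Finset.sum_filter_of_ne fun t _ ht => Nat.pos_of_ne_zero ht).symm
    have e2 : Sd μ R κ x y ≤ (((range y).filter (fun t => κ t < κ y ∧ 0 < x t ∧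
        U μ R x t ≤ R - 1 - y)).filter (fun t => 0 < U μ R x t)).card * w := by
      rw [e1, ← smul_eq_mul]
      refine Finset.sum_le_card_nsmul _ _ _ fun t ht => ?_
      simp only [mem_filter] at ht
      exact ht.1.2.2.2
    have e3 : ((range y).filter (fun t => κ t < κ y ∧ 0 < x t ∧
        U μ R x t ≤ R - 1 - y)).filter (fun t => 0 < U μ R x t) ⊆
        Ioc (R - 1 - μ - w) (R - 1 - μ) ∪ (range y).filter (fun t => R - 1 - μ < t ∧ κ t < κ y ∧
          0 < x t ∧ 0 < U μ R x t ∧ U μ R x t ≤ R - 1 - y) := by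
      intro t ht
      simp only [mem_filter, mem_range, mem_union, mem_Ioc] at ht ⊢
      obtain ⟨⟨t1, t2, t3, t4⟩, t5⟩ := ht
      by_cases htJ : R - 1 - μ < t
      · right
        exact ⟨t1, htJ, t2, t3, t5, t4⟩
      · left
        unfold U at t4 t5
        omega
    have e4 := (Finset.card_le_card e3).trans (Finset.card_union_le _ _)
    rw [Nat.card_Ioc] at e4
    have e5 : R - 1 - μ - (R - 1 - μ - w) ≤ w := by omega
    have e6 : (((range y).filter (fun t => κ t < κ y ∧ 0 < x t ∧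
        U μ R x t ≤ R - 1 - y)).filter (fun t => 0 < U μ R x t)).card ≤ w + c := by omega
    calc Sd μ R κ x y ≤ _ := e2
      _ ≤ (w + c) * w := Nat.mul_le_mul_right w e6
      _ = w * (w + c) := Nat.mul_comm _ _
  calc l * Sd μ R κ x y ≤ l * (w * (w + c)) := Nat.mul_le_mul_left l hSd
    _ = w * (l * w + l * c) := by ring
    _ ≤ w * (l * w + (84 * μ + 3 * K * l + 200 * 2 ^ 14 * l * w * Lg)) :=
        Nat.mul_le_mul_left w (Nat.add_le_add_left hp2 _)
    _ = w * (l * w + 84 * μ + 3 * K * l + 200 * 2 ^ 14 * l * w * Lg) := by ring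

end Pool.Agent.Helper5.UN
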