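import Pool.Agent.Helper5.UN.Goals
import Pool.Agent.Helper22.UN.VAL
import Pool.Agent.Helper29.GC.Loc

/-!
# Project UN: the goal `ASM`
-/

namespace Pool.Agent.Helper5.UN

open WeierstrassCurve Height Height.AdmissibleAbsValues MvPolynomial
open Pool.Agent.Helper29.BL Pool.Agent.Helper29.GC Pool.Agent.Helper5.RO

theorem hombd {K : Type} [Field K] [AdmissibleAbsValues K] {n : ℕ} (p : MvPolynomial (Fin n) K)
    (N : ℕ) (hp : p.IsHomogeneous N) : ∃ c : AbsoluteValue K ℝ → ℝ, FS c ∧ (∀ v, 0 ≤ c v) ∧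
      ∀ v (x : Fin n → K) (V : ℝ), (∀ i, v (x i) ≤ V) →
        v (eval x p) ≤ Real.exp (c v) * |V| ^ N := by
  classical
  have h1 : (1 : ℝ) ≤ (p.support.card : ℝ) + 1 := by
    have : (0 : ℝ) ≤ (p.support.card : ℝ) := Nat.cast_nonneg _
    linarith
  refine ⟨fun v => Real.log (cst v (p.support.card + 1)) +
    ∑ m ∈ p.support, Real.posLog (v (coeff m p)), ?_, ?_, ?_⟩
  · exact (FS_log_cst _).add (FS.sum _ fun m _ => FS_posLog _)
  · intro v
    exact add_nonneg (Real.log_nonneg (one_le_cst v h1))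
      (Finset.sum_nonneg fun _ _ => Real.posLog_nonneg)
  · intro v x V hV
    have hV' : ∀ i, v (x i) ≤ |V| := fun i => (hV i).trans (le_abs_self V)
    rw [Real.exp_add, Real.exp_log (cst_pos v h1), eval_eq']
    set E := Real.exp (∑ m ∈ p.support, Real.posLog (v (coeff m p))) with hE
    rw [mul_assoc]
    refine abv_sum_le v _ _ (by positivity) (fun m hm => ?_) (by linarith)
    rw [map_mul]
    refine mul_le_mul ?_ ?_ (v.nonneg _) (Real.exp_pos _).le
    · have h2 : Real.posLog (v (coeff m p)) ≤ ∑ m ∈ p.support, Real.posLog (v (coeff m p)) :=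
        Finset.single_le_sum (f := fun m => Real.posLog (v (coeff m p)))
          (fun _ _ => Real.posLog_nonneg) hm
      have h3 : v (coeff m p) ≤ Real.exp (Real.posLog (v (coeff m p))) := by
        rcases eq_or_lt_of_le (v.nonneg (coeff m p)) with h0 | h0
        · rw [← h0]; exact (Real.exp_pos _).le
        · conv_lhs => rw [← Real.exp_log h0]
          exact Real.exp_le_exp.2 (le_max_right _ _)
      exact h3.trans (Real.exp_le_exp.2 h2)
    · rw [map_prod]
      have h4 : ∑ i, m i = N := by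
        have h5 := hp (mem_support_iff.1 hm)
        rw [← h5, Finsupp.weight_apply, Finsupp.sum_fintype _ _ (by simp)]
        simp
      rw [← h4, ← Finset.prod_pow_eq_pow_sum]
      refine Finset.prod_le_prod (fun i _ => v.nonneg _) fun i _ => ?_
      rw [map_pow]
      exact pow_le_pow_left₀ (v.nonneg _) (hV' i) _

theorem sy_gauss {K : Type} [Field K] (v : AbsoluteValue K ℝ) (a b : Fin 2 → K) (X : ℝ)
    (h0 : v (sy a b 0) ≤ X) (h1 : v (sy a b 1) ≤ X) (h2 : v (sy a b 2) ≤ X) :
    max (v (a 0)) (v (a 1)) * max (v (b 0)) (v (b 1)) ≤ cst v 2 * X := by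
  have hc := one_le_cst v (c := 2) (by norm_num)
  have e0 : sy a b 0 = a 0 * b 0 := rfl
  have e1 : sy a b 1 = a 0 * b 1 + a 1 * b 0 := rfl
  have e2 : sy a b 2 = a 1 * b 1 := rfl
  rw [e0, map_mul] at h0
  rw [e1] at h1
  rw [e2, map_mul] at h2
  have hX : 0 ≤ X := (mul_nonneg (v.nonneg _) (v.nonneg _)).trans h0
  have hXc : X ≤ cst v 2 * X := by nlinarith
  have p0 := v.nonneg (a 0)
  have p1 := v.nonneg (a 1)
  have q0 := v.nonneg (b 0)
  have q1 := v.nonneg (b 1)
  rcases le_total (v (a 0)) (v (a 1)) with ha | ha <;>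
    rcases le_total (v (b 0)) (v (b 1)) with hb | hb
  · rw [max_eq_right ha, max_eq_right hb]
    exact h2.trans hXc
  · rw [max_eq_right ha, max_eq_left hb, ← map_mul]
    have e : a 1 * b 0 = (a 0 * b 1 + a 1 * b 0) + -(a 0 * b 1) := by ring
    rw [e]
    refine abv_add_le v _ _ h1 ?_
    rw [v.map_neg, map_mul]
    exact (mul_le_mul_of_nonneg_left hb p0).trans h0
  · rw [max_eq_left ha, max_eq_right hb, ← map_mul]
    have e : a 0 * b 1 = (a 0 * b 1 + a 1 * b 0) + -(a 1 * b 0) := by ring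
    rw [e]
    refine abv_add_le v _ _ h1 ?_
    rw [v.map_neg, map_mul]
    exact (mul_le_mul_of_nonneg_right ha q0).trans h0
  · rw [max_eq_left ha, max_eq_left hb]
    exact h0.trans hXc

theorem asm_low {K : Type} [Field K] [AdmissibleAbsValues K] (W : WeierstrassCurve K)
    [W.IsElliptic] : ∃ c : AbsoluteValue K ℝ → ℝ, FS c ∧ (∀ v, 0 ≤ c v) ∧
      ∀ v (x : Fin 3 → K) (X S : ℝ), (∀ i, v (x i) ≤ X) → (∃ i, v (x i) = X) →
        (∀ j, v (asm (RingHom.id K) W x j) ≤ S) → X ^ 2 ≤ Real.exp (c v) * S := by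
  classical
  choose c hc hc0 h using fun ij : Fin 3 × Fin 3 => hombd
    (C (↑W.Δ'⁻¹ : K) * addSubMapCoeff W ij) 2 ((isHomogeneous_addSubMapCoeff W ij).C_mul _)
  have h3 : (1 : ℝ) ≤ 3 := by norm_num
  refine ⟨fun v => Real.log (cst v 3) + ∑ ij, c ij v, (FS_log_cst _).add (FS.sum _ fun ij _ => hc ij),
    fun v => add_nonneg (Real.log_nonneg (one_le_cst v h3))
      (Finset.sum_nonneg fun ij _ => hc0 ij v), fun v x X S hX hi hS => ?_⟩
  obtain ⟨i, hi⟩ := hi
  have hX0 : 0 ≤ X := hi ▸ v.nonneg _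
  have hS0 : 0 ≤ S := (v.nonneg _).trans (hS 0)
  have hid := addSubMapCoeff_condition W x i
  have hasm : ∀ j, eval x (addSubMap W j) = asm (RingHom.id K) W x j := by
    intro j
    rw [Helper18.RO.asm_eval]
    congr 2
  have h4 : X ^ 4 ≤ cst v 3 * (Real.exp (∑ ij, c ij v) * X ^ 2 * S) := by
    rw [← hi, ← map_pow, ← hid]
    refine abv_sum_le v _ _ (by positivity) (fun j _ => ?_) (by simp)
    rw [map_mul, hasm, hi]
    refine mul_le_mul ?_ (hS j) (v.nonneg _) (by positivity)
    have h5 := h (i, j) v x X hX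
    rw [abs_of_nonneg hX0] at h5
    refine h5.trans (mul_le_mul_of_nonneg_right (Real.exp_le_exp.2 ?_) (by positivity))
    exact Finset.single_le_sum (f := fun ij => c ij v) (fun ij _ => hc0 ij v)
      (Finset.mem_univ (i, j))
  rw [Real.exp_add, Real.exp_log (cst_pos v h3)]
  have hE := Real.exp_pos (∑ ij, c ij v)
  have hc3 := cst_pos v h3
  rcases eq_or_lt_of_le hX0 with h0 | h0
  · rw [← h0, zero_pow two_ne_zero]
    positivity
  · have h5 : X ^ 2 * X ^ 2 ≤ (cst v 3 * Real.exp (∑ ij, c ij v) * S) * X ^ 2 := by nlinarith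
    exact le_of_mul_le_mul_right h5 (by positivity)

theorem gASM : G_ASM := by
  refine ⟨?_, ?_, ?_, ?_, ?_⟩
  · intro K F _ _ _ φ W _ W' hW' P Q
    subst hW'
    obtain ⟨c, hc, h⟩ := Helper22.UN.asm_sy φ W P Q
    exact ⟨c, hc, funext h⟩
  · intro R S _ _ φ W k l v a b
    constructor
    · funext j
      have := Helper18.RO.asm_smul φ W k v j
      exact this
    · funext j
      fin_cases j <;> simp [sy] <;> ring
  · intro K F _ _ φ W _ v hv h
    have h1 := addSubMap_ne_zero (W.map φ) hv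
    apply h1
    funext j
    rw [← Helper18.RO.asm_eval, h]
  · intro F _ a b c ha hb hc
    constructor
    · intro h
      have h0 : a 0 * b 0 = 0 := congrFun h 0
      have h1 : a 0 * b 1 + a 1 * b 0 = 0 := congrFun h 1
      have h2 : a 1 * b 1 = 0 := congrFun h 2
      rcases mul_eq_zero.1 h0 with h3 | h3
      · have h4 : a 1 ≠ 0 := fun h5 => ha (by ext i; fin_cases i <;> simp [h3, h5])
        have h5 : b 1 = 0 := (mul_eq_zero.1 h2).resolve_left h4
        rw [h3, zero_mul, zero_add] at h1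
        have h6 : b 0 = 0 := (mul_eq_zero.1 h1).resolve_left h4
        exact hb (by ext i; fin_cases i <;> simp [h6, h5])
      · have h4 : b 1 ≠ 0 := fun h5 => hb (by ext i; fin_cases i <;> simp [h3, h5])
        have h5 : a 1 = 0 := (mul_eq_zero.1 h2).resolve_right h4
        rw [h3, mul_zero, add_zero] at h1
        have h6 : a 0 = 0 := (mul_eq_zero.1 h1).resolve_right h4
        exact ha (by ext i; fin_cases i <;> simp [h6, h5])
    · intro h
      have h01 := h 0 1
      have h12 := h 1 2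
      have e0 : ∀ b : Fin 2 → F, sy a b 0 = a 0 * b 0 := fun b => rfl
      have e1 : ∀ b : Fin 2 → F, sy a b 1 = a 0 * b 1 + a 1 * b 0 := fun b => rfl
      have e2 : ∀ b : Fin 2 → F, sy a b 2 = a 1 * b 1 := fun b => rfl
      rw [e0, e1, e1, e0] at h01
      rw [e1, e2, e2, e1] at h12
      by_cases h3 : a 0 = 0
      · have h4 : a 1 ≠ 0 := fun h5 => ha (by ext i; fin_cases i <;> simp [h3, h5])
        have h5 : a 1 ^ 2 * (b 0 * c 1 - b 1 * c 0) = 0 := by
          rw [h3] at h12
          linear_combination h12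
        have h6 := (mul_eq_zero.1 h5).resolve_left (pow_ne_zero 2 h4)
        exact sub_eq_zero.1 h6
      · have h5 : a 0 ^ 2 * (b 0 * c 1 - b 1 * c 0) = 0 := by linear_combination h01
        have h6 := (mul_eq_zero.1 h5).resolve_left (pow_ne_zero 2 h3)
        exact sub_eq_zero.1 h6
  · intro K _ _ W _
    obtain ⟨c, hc, hc0, h⟩ := asm_low W
    have h2 : (1 : ℝ) ≤ 2 := by norm_num
    refine ⟨fun v => (Real.log (cst v 2) + Real.log (cst v 2)) + c v,
      ((FS_log_cst _).add (FS_log_cst _)).add hc, fun v => ?_, fun v a b => ?_⟩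
    · have := Real.log_nonneg (one_le_cst v h2)
      have := hc0 v
      positivity
    · set x := sy a b with hx
      set X := max (v (x 0)) (max (v (x 1)) (v (x 2))) with hX
      set S := max (v (asm (RingHom.id K) W x 0)) (max (v (asm (RingHom.id K) W x 1))
        (v (asm (RingHom.id K) W x 2))) with hS
      have hx0 : v (x 0) ≤ X := le_max_left _ _
      have hx1 : v (x 1) ≤ X := (le_max_left _ _).trans (le_max_right _ _)
      have hx2 : v (x 2) ≤ X := (le_max_right _ _).trans (le_max_right _ _)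
      have hX0 : 0 ≤ X := (v.nonneg _).trans hx0
      have h3 := sy_gauss v a b X hx0 hx1 hx2
      have h4 := h v x X S (fun i => by fin_cases i; exacts [hx0, hx1, hx2]) (by
        rcases max_choice (v (x 0)) (max (v (x 1)) (v (x 2))) with h5 | h5
        · exact ⟨0, h5.symm⟩
        · rcases max_choice (v (x 1)) (v (x 2)) with h6 | h6
          · exact ⟨1, by rw [hX, h5, h6]⟩
          · exact ⟨2, by rw [hX, h5, h6]⟩) (fun j => by
        fin_cases j
        exacts [le_max_left _ _, (le_max_left _ _).trans (le_max_right _ _),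
          (le_max_right _ _).trans (le_max_right _ _)])
      rw [Real.exp_add, Real.exp_add, Real.exp_log (cst_pos v h2)]
      have hcp := cst_pos v h2
      have h5 : 0 ≤ max (v (a 0)) (v (a 1)) * max (v (b 0)) (v (b 1)) :=
        mul_nonneg (le_max_of_le_left (v.nonneg _)) (le_max_of_le_left (v.nonneg _))
      calc (max (v (a 0)) (v (a 1)) * max (v (b 0)) (v (b 1))) ^ 2
          ≤ (cst v 2 * X) ^ 2 := pow_le_pow_left₀ h5 h3 2
        _ = cst v 2 * cst v 2 * X ^ 2 := by ring
        _ ≤ cst v 2 * cst v 2 * (Real.exp (c v) * S) :=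
            mul_le_mul_of_nonneg_left h4 (by positivity)
        _ = cst v 2 * cst v 2 * Real.exp (c v) * S := by ring

end Pool.Agent.Helper5.UN
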