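import Pool.Agent.Helper5.UN.Goals

/-!
# Project UN: the goal `CHT`
-/

namespace Pool.Agent.Helper5.UN

open WeierstrassCurve Pool.Agent.Helper29.BL

theorem vz_un {G : Type} [AddCommGroup G] {n : ℕ} (z : Fin n → G) (i : Fin n) :
    vz (vec (un i)) z = z i := by
  classical
  unfold vz vec un
  rw [Finset.sum_eq_single i]
  · simp
  · intro j _ hj
    simp [Pi.single_eq_of_ne hj]
  · intro h
    exact absurd (Finset.mem_univ i) h

/-- `TP` for one index. -/
theorem tp_one {K : Type} [Field K] [DecidableEq K] {W : Affine K} (P : W.Point) (b : Bool) (c : K)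
    (h1 : b = true → P ≠ 0 ∧ c = xc P) (h2 : b = false → c = (xc P)⁻¹ ∧ (P ≠ 0 → xc P ≠ 0)) :
    ∃ σ : K, σ ≠ 0 ∧ (if b then ![c, 1] else ![1, c] : Fin 2 → K) = σ • P.xRep := by
  rcases b with _ | _
  · obtain ⟨h3, h4⟩ := h2 rfl
    rcases P with _ | ⟨x, y, h⟩
    · refine ⟨1, one_ne_zero, ?_⟩
      change _ = (1 : K) • (0 : W.Point).xRep
      rw [h3]
      ext i
      fin_cases i
      · simp
      · have : xc (Affine.Point.zero : W.Point) = 0 := rfl
        simp [this]
    · have h5 : x ≠ 0 := h4 (by simp)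
      refine ⟨x⁻¹, inv_ne_zero h5, ?_⟩
      rw [h3, Affine.Point.xRep_some]
      ext i
      fin_cases i <;> simp [h5]
  · obtain ⟨h3, h4⟩ := h1 rfl
    rcases P with _ | ⟨x, y, h⟩
    · exact absurd rfl h3
    · refine ⟨1, one_ne_zero, ?_⟩
      rw [h4, Affine.Point.xRep_some]
      ext i
      fin_cases i <;> simp

theorem gCHT : G_CHT := by
  intro K _ _ W n z
  classical
  refine ⟨fun v => ?_, fun hz => ?_, vz_un z⟩
  · refine ⟨fun e => decide (vz (vec e) z ≠ 0 ∧ v (xc (vz (vec e) z)) ≤ 1),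
      fun e => if vz (vec e) z ≠ 0 ∧ v (xc (vz (vec e) z)) ≤ 1 then xc (vz (vec e) z)
        else (xc (vz (vec e) z))⁻¹, fun e => ?_, fun e => ?_⟩
    · refine tp_one _ _ _ (fun h => ?_) (fun h => ?_)
      · rw [decide_eq_true_eq] at h
        exact ⟨h.1, if_pos h⟩
      · rw [decide_eq_false_iff_not] at h
        refine ⟨if_neg h, fun h0 hx => ?_⟩
        apply h
        rw [hx]
        exact ⟨h0, by simp⟩
    · dsimp only
      split_ifs with h
      · exact h.2
      · by_cases h0 : vz (vec e) z = 0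
        · rw [h0]
          simp
        · have h1 : 1 < v (xc (vz (vec e) z)) := by
            by_contra h2
            exact h ⟨h0, not_lt.1 h2⟩
          rw [map_inv₀]
          exact inv_le_one_of_one_le₀ h1.le
  · refine ⟨fun e => decide (vz (vec e) z ≠ 0),
      fun e => if vz (vec e) z ≠ 0 then xc (vz (vec e) z) else (xc (vz (vec e) z))⁻¹,
      fun e => ?_, fun i => ?_⟩
    · refine tp_one _ _ _ (fun h => ?_) (fun h => ?_)
      · rw [decide_eq_true_eq] at h
        exact ⟨h, if_pos h⟩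
      · rw [decide_eq_false_iff_not] at h
        exact ⟨if_neg h, fun h0 => absurd h0 h⟩
    · have h1 := vz_un z i
      dsimp only
      rw [h1]
      exact ⟨decide_eq_true (hz i), if_pos (hz i)⟩

end Pool.Agent.Helper5.UN
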