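import Pool.Agent.Helper5.UN.Goals

/-!
Project UN, packet DEGR: total degrees.
-/

set_option autoImplicit false

namespace Pool.Agent.Helper5.UN.DG

open MvPolynomial Pool.Agent.Helper5.UN Pool.Agent.Helper5.RO

section deg

variable {K τ : Type} [Field K]

theorem td_add {p q : MvPolynomial τ K} {n : ℕ} (hp : p.totalDegree ≤ n)
    (hq : q.totalDegree ≤ n) : (p + q).totalDegree ≤ n :=
  (totalDegree_add p q).trans (max_le hp hq)

theorem td_sub {p q : MvPolynomial τ K} {n : ℕ} (hp : p.totalDegree ≤ n)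
    (hq : q.totalDegree ≤ n) : (p - q).totalDegree ≤ n :=
  (totalDegree_sub p q).trans (max_le hp hq)

theorem td_mul {p q : MvPolynomial τ K} {n n' : ℕ} (hp : p.totalDegree ≤ n)
    (hq : q.totalDegree ≤ n') : (p * q).totalDegree ≤ n + n' :=
  (totalDegree_mul p q).trans (add_le_add hp hq)

theorem td_C (c : K) : (C c : MvPolynomial τ K).totalDegree ≤ 0 := (totalDegree_C c).le

theorem td_Cmm (c : K) {p q : MvPolynomial τ K} {n : ℕ} (hp : p.totalDegree ≤ n)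
    (hq : q.totalDegree ≤ n) : (C c * p * q).totalDegree ≤ n + n := by
  have h := td_mul (td_mul (td_C (τ := τ) c) hp) hq
  rw [zero_add] at h
  exact h

theorem td_sq {p : MvPolynomial τ K} {n : ℕ} (hp : p.totalDegree ≤ n) :
    (p ^ 2).totalDegree ≤ n + n := by
  rw [pow_two]
  exact td_mul hp hp

theorem td_Csq (c : K) {p : MvPolynomial τ K} {n : ℕ} (hp : p.totalDegree ≤ n) :
    (C c * p ^ 2).totalDegree ≤ n + n := by
  have h := td_mul (td_C (τ := τ) c) (td_sq hp)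
  rw [zero_add] at h
  exact h

theorem td_sy {P Q : Fin 2 → MvPolynomial τ K} {d : ℕ} (hP : ∀ j, (P j).totalDegree ≤ d)
    (hQ : ∀ j, (Q j).totalDegree ≤ d) (i : Fin 3) : (sy P Q i).totalDegree ≤ d + d := by
  fin_cases i
  · exact td_mul (hP 0) (hQ 0)
  · exact td_add (td_mul (hP 0) (hQ 1)) (td_mul (hP 1) (hQ 0))
  · exact td_mul (hP 1) (hQ 1)

theorem td_asm (W : WeierstrassCurve K) {v : Fin 3 → MvPolynomial τ K} {d : ℕ}
    (hv : ∀ j, (v j).totalDegree ≤ d) (i : Fin 3) : (asm C W v i).totalDegree ≤ d + d := by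
  have h2 : (2 : MvPolynomial τ K) = C 2 := by
    rw [map_ofNat]
  have h4 : (4 : MvPolynomial τ K) = C 4 := by
    rw [map_ofNat]
  fin_cases i
  · show (v 0 ^ 2 - C W.b₄ * v 0 * v 2 - C W.b₆ * v 1 * v 2 - C W.b₈ * v 2 ^ 2).totalDegree ≤ _
    exact td_sub (td_sub (td_sub (td_sq (hv 0)) (td_Cmm _ (hv 0) (hv 2)))
      (td_Cmm _ (hv 1) (hv 2))) (td_Csq _ (hv 2))
  · show (2 * v 1 * v 0 + C W.b₂ * v 0 * v 2 + C W.b₄ * v 1 * v 2 +
      C W.b₆ * v 2 ^ 2).totalDegree ≤ _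
    rw [h2]
    exact td_add (td_add (td_add (td_Cmm _ (hv 1) (hv 0)) (td_Cmm _ (hv 0) (hv 2)))
      (td_Cmm _ (hv 1) (hv 2))) (td_Csq _ (hv 2))
  · show (v 1 ^ 2 - 4 * v 0 * v 2).totalDegree ≤ _
    rw [h4]
    exact td_sub (td_sq (hv 1)) (td_Cmm _ (hv 0) (hv 2))

theorem td_pr {n : ℕ} (a : EE n → Bool) {ζ : EE n → MvPolynomial τ K}
    (hζ : ∀ e, (ζ e).totalDegree ≤ 1) (e : EE n) (j : Fin 2) :
    (pr a ζ e j).totalDegree ≤ 1 := by
  have h1 : (1 : MvPolynomial τ K).totalDegree ≤ 1 := by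
    rw [totalDegree_one]
    exact zero_le_one
  unfold pr
  split_ifs
  · fin_cases j
    · exact hζ e
    · exact h1
  · fin_cases j
    · exact h1
    · exact hζ e

theorem td_dad (W : WeierstrassCurve K) {P Q r : Fin 2 → MvPolynomial τ K} (b : Bool) {d : ℕ}
    (hP : ∀ j, (P j).totalDegree ≤ d) (hQ : ∀ j, (Q j).totalDegree ≤ d)
    (hr : ∀ j, (r j).totalDegree ≤ 1) (j : Fin 2) :
    (dad C W P Q b r j).totalDegree ≤ d + d + (d + d) + 1 := by
  have h1 := td_asm W (td_sy hP hQ)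
  have h2 : ∀ i, (asm C W (sy P Q) i).totalDegree ≤ d + d + (d + d) + 1 :=
    fun i => (h1 i).trans (Nat.le_succ _)
  have h3 := td_sub (h2 1) (td_mul (h1 2) (hr 0))
  have h4 := td_sub (h2 1) (td_mul (h1 0) (hr 1))
  have h5 := h2 0
  have h6 := h2 2
  unfold dad
  generalize asm C W (sy P Q) = u at h3 h4 h5 h6 ⊢
  cases b
  · fin_cases j
    · exact h5
    · exact h4
  · fin_cases j
    · exact h3
    · exact h6

theorem td_rp (W : WeierstrassCurve K) {n : ℕ} (a : EE n → Bool)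
    {ζ : EE n → MvPolynomial τ K} (hζ : ∀ e, (ζ e).totalDegree ≤ 1) (k : ℕ) :
    ∃ d : ℕ, 3 * d + 1 ≤ 4 ^ (k + 1) ∧ ∀ (m : Fin n → ℤ) (j : Fin 2),
      (rp C W a ζ k m j).totalDegree ≤ d := by
  induction k with
  | zero => exact ⟨1, by norm_num, fun m j => td_pr a hζ _ j⟩
  | succ k ih =>
    obtain ⟨d, hd, h⟩ := ih
    refine ⟨d + d + (d + d) + 1, ?_, fun m j => ?_⟩
    · rw [pow_succ]
      omega
    · exact td_dad W _ (h _) (h _) (td_pr a hζ _) j

end deg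

theorem pow_clog_le {M : ℕ} (hM : 1 ≤ M) : 2 ^ Nat.clog 2 M ≤ 2 * M := by
  rcases Nat.lt_or_ge 1 M with h | h
  · have h1 := Nat.pow_pred_clog_lt_self Nat.one_lt_two h
    have h2 : 0 < Nat.clog 2 M := Nat.clog_pos Nat.one_lt_two h
    obtain ⟨c, hc⟩ := Nat.exists_eq_succ_of_ne_zero h2.ne'
    rw [hc] at h1 ⊢
    rw [Nat.pred_succ] at h1
    rw [pow_succ]
    omega
  · have h1 : M = 1 := le_antisymm h hM
    rw [h1, Nat.clog_one_right]
    norm_num

/-- Packet DEGR. -/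
theorem gDEGR : G_DEGR := by
  refine ⟨?_, ?_, ?_⟩
  · intro K τ _ W n a ζ hζ k m j
    obtain ⟨d, hd, h⟩ := td_rp W a hζ k
    refine (h m j).trans ?_
    rw [pow_succ] at hd
    omega
  · intro n m hm
    set M := Finset.univ.sup fun i => (m i).natAbs with hMdef
    have hle : ∀ i, (m i).natAbs ≤ M := fun i =>
      Finset.le_sup (f := fun i => (m i).natAbs) (Finset.mem_univ i)
    obtain ⟨i0, hi0⟩ : ∃ i, m i ≠ 0 := by
      by_contra h
      push Not at h
      exact hm (funext h)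
    have hM : 1 ≤ M := (Int.natAbs_pos.2 hi0).trans_le (hle i0)
    have h1 : 2 ^ lv m ≤ 2 * M := pow_clog_le hM
    obtain ⟨i, -, hi⟩ := Finset.exists_mem_eq_sup Finset.univ ⟨i0, Finset.mem_univ i0⟩
      (fun i => (m i).natAbs)
    have h2 : M ^ 2 ≤ ∑ i, (m i).natAbs ^ 2 := by
      rw [hMdef, hi]
      exact Finset.single_le_sum (f := fun i => (m i).natAbs ^ 2) (fun _ _ => Nat.zero_le _)
        (Finset.mem_univ i)
    have h3 : (4 : ℕ) ^ lv m = (2 ^ lv m) ^ 2 := by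
      rw [← pow_mul, mul_comm, pow_mul]
      norm_num
    rw [h3]
    have h4 : (2 ^ lv m) ^ 2 ≤ (2 * M) ^ 2 := Nat.pow_le_pow_left h1 2
    have h5 : (2 * M) ^ 2 = 4 * M ^ 2 := by ring
    rw [h5] at h4
    omega
  · intro n m i
    have h1 : (m i).natAbs ≤ Finset.univ.sup fun i => (m i).natAbs :=
      Finset.le_sup (f := fun i => (m i).natAbs) (Finset.mem_univ i)
    have h2 : (m i).natAbs ≤ 2 ^ lv m := h1.trans (Nat.le_pow_clog Nat.one_lt_two _)
    rw [Int.abs_eq_natAbs]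
    exact_mod_cast h2

end Pool.Agent.Helper5.UN.DG
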