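import Pool.Agent.Helper5.UN.Goals

/-!
# Project UN: the goal `EMP`
-/

namespace Pool.Agent.Helper5.UN

open WeierstrassCurve MvPolynomial Pool.Agent.Helper29.BL

theorem map_pr {S T : Type} [CommRing S] [CommRing T] (ψ : S →+* T) {n : ℕ} (a : EE n → Bool)
    (ζ : EE n → S) (e : EE n) (j : Fin 2) : ψ (pr a ζ e j) = pr a (fun e => ψ (ζ e)) e j := by
  unfold pr
  split_ifs <;> fin_cases j <;> simp

theorem aeval_ft (hHVB : G_HVB) {K : Type} [Field K] {B : Type} [Fintype B] (n : B → ℕ)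
    (a : ∀ t, EE (n t) → Bool) {Ω : Type} [Field Ω] [Algebra K Ω] (ζ : VX n → Ω) (D : ℕ)
    (f : MvPolynomial (IX n) K) : aeval ζ (ft n a D f) =
      hv (algebraMap K Ω) (fun _ => D) f
        (fun i => pr (a i.1) (fun e => ζ ⟨i.1, e⟩) (un i.2)) := by
  obtain ⟨-, -, -, -, h5, -, -⟩ := hHVB
  have h := h5 K (MvPolynomial (VX n) K) Ω C (aeval ζ : MvPolynomial (VX n) K →ₐ[K] Ω).toRingHom
    (IX n) (fun _ => D) f (fun i => pr (a i.1) (fun e => X ⟨i.1, e⟩) (un i.2))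
  have e1 : ((aeval ζ : MvPolynomial (VX n) K →ₐ[K] Ω).toRingHom).comp C = algebraMap K Ω := by
    ext x
    simp
  rw [e1] at h
  have e2 : (fun (i : IX n) (j : Fin 2) => (aeval ζ : MvPolynomial (VX n) K →ₐ[K] Ω).toRingHom
      (pr (a i.1) (fun e => X ⟨i.1, e⟩) (un i.2) j)) =
      fun i => pr (a i.1) (fun e => ζ ⟨i.1, e⟩) (un i.2) := by
    funext i j
    rw [map_pr]
    congr 1
    simp
  rw [e2] at h
  exact h

theorem gEMP (hRELM : G_RELM) (hDIM : G_DIM) (hHVB : G_HVB) : G_EMP := by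
  intro K _ B _ W _ n s ι _ D f hdeg hcod hcard a
  rw [← Ideal.eq_top_iff_one]
  by_contra hne
  obtain ⟨P, hP, hle⟩ := Ideal.exists_le_maximal _ hne
  letI : Field (MvPolynomial (VX n) K ⧸ P) := Ideal.Quotient.field P
  let ζ : VX n → MvPolynomial (VX n) K ⧸ P := fun i => Ideal.Quotient.mk P (X i)
  have hae : ∀ g : MvPolynomial (VX n) K, aeval ζ g = Ideal.Quotient.mk P g := by
    intro g
    have : (aeval ζ : MvPolynomial (VX n) K →ₐ[K] MvPolynomial (VX n) K ⧸ P) =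
        Ideal.Quotient.mkₐ K P := by
      apply MvPolynomial.algHom_ext
      intro i
      simp [ζ]
    rw [this]
    rfl
  have hz : ∀ g ∈ IA W n a D f, aeval ζ g = 0 := by
    intro g hg
    rw [hae]
    exact Ideal.Quotient.eq_zero_iff_mem.2 (hle hg)
  have hr := hRELM K B W n a (MvPolynomial (VX n) K ⧸ P) ζ
    (fun g hg => hz g (Ideal.mem_sup_left hg))
  obtain ⟨T, hT, -⟩ := hDIM K B W n a (MvPolynomial (VX n) K ⧸ P) ζ hr ι D s f hdeg hcod
    (fun j => by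
      rw [← aeval_ft hHVB n a ζ D (f j)]
      exact hz _ (Ideal.mem_sup_right (Ideal.subset_span ⟨j, rfl⟩)))
  omega

end Pool.Agent.Helper5.UN
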