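import Pool.Agent.Helper5.UN.Goals
import Pool.Agent.Helper20.BL.PACK

/-!
# Project UN: the goal `GDET`
-/

namespace Pool.Agent.Helper5.UN

open Matrix
open Pool.Agent.Helper29.BL

theorem det_one_add_smul {n : ℕ} (A : Matrix (Fin n) (Fin n) ℝ) (hA : A.IsHermitian) (c : ℝ)
    (hc : 0 < c) : (1 + c • A).det = ∏ i, (1 + c * hA.eigenvalues i) := by
  have h1 := hA.charpoly_eq
  have h2 := congrArg (Polynomial.eval (-c⁻¹)) h1
  rw [Matrix.eval_charpoly, Polynomial.eval_prod] at h2
  have h3 : (1 + c • A) = (-c) • ((Matrix.scalar (Fin n)) (-c⁻¹) - A) := by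
    ext i j
    simp only [Matrix.add_apply, Matrix.smul_apply, Matrix.sub_apply, smul_eq_mul,
      Matrix.scalar_apply, Matrix.diagonal_apply, Matrix.one_apply]
    split_ifs <;> field_simp <;> ring
  rw [h3, Matrix.det_smul, h2, ← Finset.card_univ, ← Finset.prod_const, ← Finset.prod_mul_distrib]
  refine Finset.prod_congr rfl fun i _ => ?_
  simp only [Polynomial.eval_sub, Polynomial.eval_X, Polynomial.eval_C, RCLike.ofReal_real_eq_id,
    id_eq]
  field_simp
  ring

theorem rank_packQ_le {G : Type} [AddCommGroup G] {H : G → ℝ} (h : IsQuad H) {n : ℕ}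
    (z : Fin n → G) : (packQ H z).rank ≤ Set.finrank ℤ (Set.range z) := by
  classical
  rw [Matrix.rank_eq_finrank_span_row]
  obtain ⟨f, hf, -, hli⟩ := Submodule.exists_fun_fin_finrank_span_eq ℝ (Set.range (packQ H z).row)
  choose e he using hf
  have hli2 : LinearIndependent ℤ (fun j => z (e j)) := by
    rw [Fintype.linearIndependent_iff]
    intro g hg i
    rw [Fintype.linearIndependent_iff] at hli
    have h2 := hli (fun i => (g i : ℝ)) (by
      funext k
      simp only [Finset.sum_apply, Pi.smul_apply, smul_eq_mul, Pi.zero_apply]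
      have h3 := pack_polar_sum h Finset.univ (fun j => z (e j)) g (z k)
      rw [hg] at h3
      have h4 : polar' H 0 (z k) = 0 := by
        simp [polar', h.zero]
      rw [h4] at h3
      have h5 : ∀ j, (g j : ℝ) * f j k = ((g j : ℝ) * polar' H (z (e j)) (z k)) / 2 := by
        intro j
        rw [← he j]
        simp only [Matrix.row, packQ, Matrix.of_apply]
        ring
      rw [Finset.sum_congr rfl fun j _ => h5 j, ← Finset.sum_div, ← h3, zero_div]) i
    exact_mod_cast h2
  have : Module.Finite ℤ (Submodule.span ℤ (Set.range z)) :=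
    Module.Finite.span_of_finite ℤ (Set.finite_range z)
  have hli3 : LinearIndependent ℤ (fun j => (⟨z (e j), Submodule.subset_span ⟨e j, rfl⟩⟩ :
      Submodule.span ℤ (Set.range z))) :=
    LinearIndependent.of_comp (Submodule.span ℤ (Set.range z)).subtype hli2
  have h6 := hli3.fintype_card_le_finrank
  rw [Fintype.card_fin] at h6
  exact h6

theorem gGDET : G_GDET := by
  intro G _ H h n s z hs N θ hN hsum hθ
  classical
  have hpsd := packQ_psd h z
  set c := θ / N with hc
  have hc0 : 0 ≤ c := div_nonneg hθ hN.le
  refine ⟨1 + c • packQ H z, ?_, ?_, fun m => ?_⟩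
  · exact PosDef.one.add_posSemidef (hpsd.smul hc0)
  · rcases eq_or_lt_of_le hc0 with h0 | h0
    · rw [← h0, zero_smul, add_zero, det_one]
      exact one_le_pow₀ (by linarith)
    · rw [det_one_add_smul _ hpsd.isHermitian c h0]
      have hl0 : ∀ i, 0 ≤ hpsd.isHermitian.eigenvalues i := hpsd.eigenvalues_nonneg
      have htr : ∑ i, hpsd.isHermitian.eigenvalues i ≤ N := by
        have h1 := hpsd.isHermitian.trace_eq_sum_eigenvalues
        have h2 : (packQ H z).trace = ∑ i, H (z i) := by
          unfold Matrix.trace
          refine Finset.sum_congr rfl fun i _ => ?_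
          simp only [Matrix.diag_apply, packQ, Matrix.of_apply, h.polar_self]
          ring
        rw [h2] at h1
        simp only [RCLike.ofReal_real_eq_id, id_eq] at h1
        linarith
      have hl : ∀ i, 1 + c * hpsd.isHermitian.eigenvalues i ≤ 1 + θ := by
        intro i
        have h1 : hpsd.isHermitian.eigenvalues i ≤ N :=
          (Finset.single_le_sum (fun i _ => hl0 i) (Finset.mem_univ i)).trans htr
        have h2 : c * N = θ := by rw [hc]; field_simp
        nlinarith
      have hcard : (Finset.univ.filter fun i => hpsd.isHermitian.eigenvalues i ≠ 0).card ≤ s := by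
        have h1 := hpsd.isHermitian.rank_eq_card_non_zero_eigs
        rw [Fintype.card_subtype] at h1
        rw [← h1]
        exact (rank_packQ_le h z).trans hs
      rw [← Finset.prod_filter_mul_prod_filter_not Finset.univ
        (fun i => hpsd.isHermitian.eigenvalues i ≠ 0)]
      have h3 : ∏ i ∈ Finset.univ.filter (fun i => ¬ hpsd.isHermitian.eigenvalues i ≠ 0),
          (1 + c * hpsd.isHermitian.eigenvalues i) = 1 := by
        refine Finset.prod_eq_one fun i hi => ?_
        have := (Finset.mem_filter.1 hi).2
        rw [not_not] at this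
        rw [this, mul_zero, add_zero]
      rw [h3, mul_one]
      calc ∏ i ∈ Finset.univ.filter (fun i => hpsd.isHermitian.eigenvalues i ≠ 0),
          (1 + c * hpsd.isHermitian.eigenvalues i)
          ≤ ∏ i ∈ Finset.univ.filter (fun i => hpsd.isHermitian.eigenvalues i ≠ 0), (1 + θ) :=
            Finset.prod_le_prod (fun i _ => by
              have := mul_nonneg hc0 (hl0 i)
              linarith) (fun i _ => hl i)
        _ = (1 + θ) ^ (Finset.univ.filter fun i => hpsd.isHermitian.eigenvalues i ≠ 0).card := by
            rw [Finset.prod_const]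
        _ ≤ (1 + θ) ^ s := pow_le_pow_right₀ (by linarith) hcard
  · have h1 := pack_form' h z m
    have h2 : H (vz m z) = ∑ k, ∑ l, packQ H z k l * (m k : ℝ) * (m l : ℝ) := by
      unfold vz
      rw [h1]
      simp only [dotProduct, mulVec, Finset.mul_sum]
      refine Finset.sum_congr rfl fun k _ => Finset.sum_congr rfl fun l _ => ?_
      ring
    rw [h2]
    simp only [Matrix.add_apply, Matrix.smul_apply, smul_eq_mul, Matrix.one_apply, add_mul,
      Finset.sum_add_distrib, ite_mul, one_mul, zero_mul, Finset.sum_ite_eq, Finset.mem_univ,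
      if_true]
    congr 1
    · refine Finset.sum_congr rfl fun k _ => ?_
      ring
    · rw [mul_div_assoc, Finset.sum_div, Finset.mul_sum]
      refine Finset.sum_congr rfl fun k _ => ?_
      rw [Finset.sum_div, Finset.mul_sum]
      refine Finset.sum_congr rfl fun l _ => ?_
      rw [hc]
      ring

end Pool.Agent.Helper5.UN
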