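import Pool.Agent.Helper5.UN.Goals
import Pool.Agent.Helper54.UN.HILB

namespace Pool.Agent.Helper5.UN
open MvPolynomial
open scoped IntermediateField.algebraAdjoinAdjoin in
theorem gTRD : G_TRD := by
  intro K Ω _ _ _ σ _ ζ η hζ h
  classical
  have hind : (AlgebraicIndependent.matroid K Ω).Indep (Set.range ζ) :=
    AlgebraicIndependent.matroid_indep_iff.mpr hζ.to_subtype_range
  have hsub : Set.range ζ ⊆ (AlgebraicIndependent.matroid K Ω).closure (Set.range η) := by
    rintro _ ⟨i, rfl⟩
    rw [AlgebraicIndependent.matroid_closure_eq, SetLike.mem_coe, Subalgebra.mem_algebraicClosure]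
    exact (IsFractionRing.isAlgebraic_iff (Algebra.adjoin K (Set.range η))
      (IntermediateField.adjoin K (Set.range η)) Ω).mpr (h i)
  have h1 := hind.encard_le_eRk_of_subset hsub
  rw [Matroid.eRk_closure_eq] at h1
  have h3 : (Set.range ζ).encard = (Fintype.card σ : ℕ∞) := by
    rw [← Set.image_univ, hζ.injective.encard_image, Set.encard_univ, ENat.card_eq_coe_natCard,
      Nat.card_eq_fintype_card]
  rw [h3] at h1
  have h4 : (Set.range η).encard ≤ (Fintype.card σ : ℕ∞) := by
    rw [← Set.image_univ]
    refine (Set.encard_image_le _ _).trans ?_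
    rw [Set.encard_univ, ENat.card_eq_coe_natCard, Nat.card_eq_fintype_card]
  have hfin : (Set.range η).Finite := Set.finite_range η
  have h5 : (AlgebraicIndependent.matroid K Ω).Indep (Set.range η) := by
    rw [Matroid.indep_iff_eRk_eq_encard_of_finite hfin]
    exact le_antisymm (Matroid.eRk_le_encard _ _) (h4.trans h1)
  have h6 : (Fintype.card σ : ℕ∞) ≤ (Set.range η).encard := h1.trans (Matroid.eRk_le_encard _ _)
  have hinj : Function.Injective η := by
    have h7 : (Set.range η) = ((Finset.univ.image η : Finset Ω) : Set Ω) := by simp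
    rw [h7, Set.encard_coe_eq_coe_finsetCard, Nat.cast_le] at h6
    have h8 : (Finset.univ.image η).card = (Finset.univ : Finset σ).card :=
      le_antisymm Finset.card_image_le (by rwa [Finset.card_univ])
    have h9 := Finset.injOn_of_card_image_eq h8
    rwa [Finset.coe_univ, Set.injOn_univ] at h9
  have h7 := AlgebraicIndependent.matroid_indep_iff.mp h5
  exact (algebraicIndependent_subtype_range hinj).mp h7
end Pool.Agent.Helper5.UN
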