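import Pool.Agent.Helper5.UN.RELM
import Pool.Agent.Helper5.UN.EMP
import Pool.Agent.Helper5.UN.CHT
import Pool.Agent.Helper5.UN.ASM
import Pool.Agent.Helper5.UN.TRD
import Pool.Agent.Helper5.UN.GDET
import Pool.Agent.Helper65.UN.HERM
import Pool.Agent.Helper12.UN.FEX
import Pool.Agent.Helper14.UN.UN
import Pool.Agent.Helper16.UN.HVB
import Pool.Agent.Helper18.UN.GIN
import Pool.Agent.Helper22.UN.VAL
import Pool.Agent.Helper24.UN.LSZ
import Pool.Agent.Helper31.UN.IND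
import Pool.Agent.Helper51.UN.EST
import Pool.Agent.Helper54.UN.HILB
import Pool.Agent.Helper64.UN.GTP
import Pool.Agent.Helper85.UN.DIM
import Pool.Agent.Helper5.UN.DEGR
import Pool.Agent.Helper87.UN.ZEL

/-!
# Project UN: assembly
-/

namespace Pool.Agent.Helper5.UN

open Pool.Agent

theorem t_UN : G_UN :=
  have hGDET : G_GDET := gGDET
  have hASM : G_ASM := gASM
  have hTRD : G_TRD := gTRD
  have hHERM : G_HERM := Helper65.UN.gHERM
  have hHVB : G_HVB := Helper16.UN.gHVB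
  have hDEGR : G_DEGR := DG.gDEGR
  have hVAL : G_VAL := Helper22.UN.gVAL
  have hRELM : G_RELM := gRELM hASM
  have hDIM : G_DIM := Helper85.UN.gDIM hASM hHVB
  have hFEX : G_FEX := Helper12.UN.gFEX hHVB hDEGR hRELM hDIM Helper54.UN.gHILB
  have hEMP : G_EMP := gEMP hRELM hDIM hHVB
  have hLSZ : G_LSZ := Helper24.UN.gLSZ hASM hVAL
  have hEST : G_EST := Helper51.UN.EST.gEST hHVB hVAL hLSZ gCHT hDEGR
  have hIND : G_IND := Helper31.UN.gIND
  have hGIN : G_GIN := Helper18.UN.gGIN hIND hTRD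
  have hGTP : G_GTP := Helper64.UN.gGTP hASM hIND hTRD
  have hZEL : G_ZEL := Helper87.UN.gZEL hRELM hGTP hGIN hTRD hVAL hHVB gCHT hDEGR
  Helper14.UN.gUN hFEX hEMP hEST hZEL hHERM hGDET

end Pool.Agent.Helper5.UN
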