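import Pool.Agent.Helper79.UN.NGoals
import Pool.Agent.Helper79.UN.Lib

/-!
# Packet DOM: bounded quantifiers
-/

set_option autoImplicit false

open Pool.Agent.Helper97.Ku

namespace UN.PkDOM

theorem key (L : Type) [CompleteBooleanAlgebra L] (K : BSet L) (φ : BSet L → L)
    (hφ : BSet.Ext φ) (x : BSet L) (i : K.ix) :
    (K.bv i ⊓ x.eq (K.el i)) ⊓ ((K.el i).mem K ⇨ φ (K.el i)) ≤ φ x := by
  have h1 : K.bv i ⊓ ((K.el i).mem K ⇨ φ (K.el i)) ≤ φ (K.el i) :=
    (inf_le_inf_right _ (BSet.el_mem K i)).trans inf_himp_le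
  refine le_trans (le_inf ?_ ?_) (hφ (K.el i) x)
  · rw [BSet.eq_comm' (K.el i) x]
    exact inf_le_left.trans inf_le_right
  · refine le_trans ?_ h1
    exact inf_le_inf_right _ inf_le_left

theorem dom_pf : U_DOM := by
  intro L _ K
  refine ⟨K.ix, K.el, fun φ hφ => ⟨?_, ?_⟩⟩
  · refine le_antisymm (le_iInf fun i => iInf_le _ (K.el i)) (le_iInf fun x => ?_)
    rw [le_himp_iff, BSet.mem_def x K, inf_iSup_eq]
    refine iSup_le fun i => ?_
    refine le_trans ?_ (key L K φ hφ x i)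
    rw [inf_comm]
    exact inf_le_inf_left _ (iInf_le _ i)
  · refine le_antisymm (iSup_le fun x => ?_) (iSup_le fun i => ?_)
    · rw [BSet.mem_def x K, iSup_inf_eq]
      refine iSup_mono fun i => ?_
      refine le_inf ((inf_le_left.trans inf_le_left).trans (BSet.el_mem K i)) ?_
      refine le_trans ?_ (hφ x (K.el i))
      exact inf_le_inf_right _ inf_le_right
    · exact le_iSup (fun x : BSet L => x.mem K ⊓ φ x) (K.el i)

end UN.PkDOM
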