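import Pool.Agent.Helper5.UN.Defs

/-!
# Project UN (MP_a41896_nt), goals

Every `def G_NAME : Prop` is a packet; the docstring contains the proof.  A packet may take other goals
as hypotheses.  Facts proved in project RO (`Helper5/RO/Goals.lean`): `Pool.Agent.Helper62.RO.gMUL : G_MUL`
(multiplication polynomials), `Pool.Agent.Helper45.RO.gGRP : G_GRP` (points with coordinates in an
algebraically closed subfield).
-/

namespace Pool.Agent.Helper5.UN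

open WeierstrassCurve Height Height.AdmissibleAbsValues MvPolynomial
open Pool.Agent.Helper29.BL Pool.Agent.Helper5.RO

noncomputable section

/-! ## Block F: formulas -/

/-- HVB. Basic properties of `hv`. (1) additivity and (2) homogeneity in `f` (rewrite `hv` as a sum over a
finite set containing the supports); (3) scaling of the pairs; (4) affine points; (5) ring
homomorphisms; (6) trivial local upper bound (as `evbd` in `Helper29/GC/Loc.lean`, or `gHEV` in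
`Helper45/RO/HEV.lean`); (7) total degree. -/
def G_HVB : Prop :=
  (∀ (R S : Type) [CommRing R] [CommRing S] (φ : R →+* S) (σ : Type) [Fintype σ] (E : σ → ℕ)
    (f g : MvPolynomial σ R) (y : σ → Fin 2 → S), hv φ E (f + g) y = hv φ E f y + hv φ E g y) ∧
  (∀ (R S : Type) [CommRing R] [CommRing S] (φ : R →+* S) (σ : Type) [Fintype σ] (E : σ → ℕ)
    (c : R) (f : MvPolynomial σ R) (y : σ → Fin 2 → S), hv φ E (C c * f) y = φ c * hv φ E f y) ∧
  (∀ (R S : Type) [CommRing R] [CommRing S] (φ : R →+* S) (σ : Type) [Fintype σ] (E : σ → ℕ)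
    (f : MvPolynomial σ R) (κ : σ → S) (y : σ → Fin 2 → S), (∀ i, degreeOf i f ≤ E i) →
    hv φ E f (fun i => κ i • y i) = (∏ i, κ i ^ E i) * hv φ E f y) ∧
  (∀ (R S : Type) [CommRing R] [CommRing S] (φ : R →+* S) (σ : Type) [Fintype σ] (E : σ → ℕ)
    (f : MvPolynomial σ R) (x : σ → S), hv φ E f (fun i => ![x i, 1]) = eval₂ φ x f) ∧
  (∀ (R S T : Type) [CommRing R] [CommRing S] [CommRing T] (φ : R →+* S) (ψ : S →+* T) (σ : Type)
    [Fintype σ] (E : σ → ℕ) (f : MvPolynomial σ R) (y : σ → Fin 2 → S),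
    ψ (hv φ E f y) = hv (ψ.comp φ) E f fun i j => ψ (y i j)) ∧
  (∀ (K : Type) [Field K] [AdmissibleAbsValues K] (σ : Type) [Fintype σ] (E : σ → ℕ)
    (f : MvPolynomial σ K), (∀ i, degreeOf i f ≤ E i) → ∃ c : AbsoluteValue K ℝ → ℝ, FS c ∧
      (∀ v, 0 ≤ c v) ∧ ∀ v (y : σ → Fin 2 → K), v (hv (RingHom.id K) E f y) ≤
        Real.exp (c v) * ∏ i, max (v (y i 0)) (v (y i 1)) ^ E i) ∧
  (∀ (K : Type) [Field K] (σ τ : Type) [Fintype σ] (E d : σ → ℕ) (f : MvPolynomial σ K)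
    (y : σ → Fin 2 → MvPolynomial τ K), (∀ i, degreeOf i f ≤ E i) →
    (∀ i j, (y i j).totalDegree ≤ d i) →
    (hv (C : K →+* MvPolynomial τ K) E f y).totalDegree ≤ ∑ i, E i * d i)

/-- ASM. Basic properties of `asm`, `sy`, `pr`. (1) `W' = W.map φ`: `addSub_correct` of `BL/PAR.lean` (with
`add`, `dbl`, `xeq`; `asm φ W v = asm id W' v` is the value of `addSubMap`, `addSub_eval`;
`P.sym2x Q = sy P.xRep Q.xRep`). (2) homogeneity. (3) `addSubMap_ne_zero`. (4) `sy a b ≠ 0` for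
`a, b ≠ 0` over a field; if `sy a b` and `sy a c` are proportional (`a, b, c ≠ 0`) then so are `b, c`.
(5) local lower bound: by Mathlib's `addSubMapCoeff_condition`, `x_i^4 = Σ_j (Δ'⁻¹ A_ij)(x) asm_j(x)` with
quadratic forms `A_ij`; so `|x|^4 ≤ C_v |x|² |asm x|`, and `|a||b| ≤ C_v |sy a b|` (Gauss; for affine points
`GC.Mv_mul_le`; direct: if `|a_0| = |a|` and `|b_0| = |b|` clear; `|a_0| = |a|`, `|b_1| = |b|`,
`|a_0||b_0| ≤ θ|a||b|`, then `|a_0 b_1 + a_1 b_0| ≥ |a||b| - |a_1 b_0|`, and `|a_1 b_1| ≤ θ |a||b|` gives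
`|a_1| ≤ θ|a|`, .., contradiction for small `θ`, `θ < 1` if `v` is nonarchimedean). -/
def G_ASM : Prop :=
  (∀ (K F : Type) [Field K] [Field F] [DecidableEq F] (φ : K →+* F) (W : Affine K) [W.IsElliptic]
    (W' : Affine F), W' = W.map φ → ∀ P Q : W'.Point, ∃ c : F, c ≠ 0 ∧
      asm φ W (sy P.xRep Q.xRep) = c • sy (P + Q).xRep (P - Q).xRep) ∧
  (∀ (R S : Type) [CommRing R] [CommRing S] (φ : R →+* S) (W : WeierstrassCurve R) (k l : S)
    (v : Fin 3 → S) (a b : Fin 2 → S), asm φ W (k • v) = k ^ 2 • asm φ W v ∧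
      sy (k • a) (l • b) = (k * l) • sy a b) ∧
  (∀ (K F : Type) [Field K] [Field F] (φ : K →+* F) (W : WeierstrassCurve K) [W.IsElliptic]
    (v : Fin 3 → F), v ≠ 0 → asm φ W v ≠ 0) ∧
  (∀ (F : Type) [Field F] (a b c : Fin 2 → F), a ≠ 0 → b ≠ 0 → c ≠ 0 → sy a b ≠ 0 ∧
    ((∀ i j, sy a b i * sy a c j = sy a b j * sy a c i) → b 0 * c 1 = b 1 * c 0)) ∧
  (∀ (K : Type) [Field K] [AdmissibleAbsValues K] (W : WeierstrassCurve K) [W.IsElliptic],
    ∃ c : AbsoluteValue K ℝ → ℝ, FS c ∧ (∀ v, 0 ≤ c v) ∧ ∀ v (a b : Fin 2 → K),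
      (max (v (a 0)) (v (a 1)) * max (v (b 0)) (v (b 1))) ^ 2 ≤
        Real.exp (c v) * max (v (asm (RingHom.id K) W (sy a b) 0))
          (max (v (asm (RingHom.id K) W (sy a b) 1)) (v (asm (RingHom.id K) W (sy a b) 2))))

/-- VAL. The value of `rp` at a point is proportional to the pair of `Σ m_i z_i`. Induction on `k`.
`k = 0`: `vec (sg m) = m`. Step: `m' = ⌊m/2⌋`, `m'' = m - m'` satisfy the bound `2^k`,
`e = m'' - m' ∈ {0,1}^n`, `P = m'z`, `Q = m''z`: `P + Q = mz`, `P - Q = - ez`, and `xRep (-R) = xRep R`.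
ASM (1), (2): `asm (sy (σP) (σ'Q)) = c • sy (mz).xRep (ez).xRep`, `c ≠ 0`; the pair of `e` is
`(ζ,1)` or `(1,ζ) = κ (ez).xRep`, `κ ≠ 0`; so `asm (..) = (c/κ) sy (mz).xRep (pair)`, and `dad` is
`(c/κ) (mz).xRep` (with `(X₊,Z₊) = (mz).xRep`: `(s,t,u) = (X₊ζ, X₊ + Z₊ζ, Z₊)`, `t - uζ = X₊`, resp.
`(s,t,u) = (X₊, X₊ζ + Z₊, Z₊ζ)`, `t - sζ = Z₊`). Assume ASM. -/
def G_VAL : Prop := ∀ (K F : Type) [Field K] [Field F] [DecidableEq F] (φ : K →+* F) (W : Affine K)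
  [W.IsElliptic] (W' : Affine F), W' = W.map φ → ∀ (n : ℕ) (a : EE n → Bool) (ζ : EE n → F)
  (z : Fin n → W'.Point), TP a ζ z → ∀ (k : ℕ) (m : Fin n → ℤ), (∀ i, |m i| ≤ 2 ^ k) →
    ∃ σ : F, σ ≠ 0 ∧ rp φ W a ζ k m = σ • (vz m z).xRep

/-- DEGR. Total degrees. (1) Induction: `d_0 = 1`, `d_(k+1) ≤ 4 d_k + 1` (`asm` is quadratic in `sy`, which is
bilinear), so `d_k ≤ 2 * 4^k - 1` (the bound `3 d_k + 1 ≤ 4^(k+1)` is convenient). (2) `lv m = clog₂ M`,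
`M = max |m_i|`; for `m ≠ 0`: `2^(lv m) ≤ 2 M` (`M = 1`: `lv m = 0`; `M ≥ 2`: `2^(clog M - 1) < M`),
so `2 * 4^(lv m) ≤ 8 M² ≤ 8 Σ m_i²`; and `|m_i| ≤ 2^(lv m)` (`Nat.le_pow_clog`; also for `m = 0`). -/
def G_DEGR : Prop :=
  (∀ (K τ : Type) [Field K] (W : WeierstrassCurve K) (n : ℕ) (a : EE n → Bool)
    (ζ : EE n → MvPolynomial τ K), (∀ e, (ζ e).totalDegree ≤ 1) → ∀ (k : ℕ) (m : Fin n → ℤ) (j : Fin 2),
    (rp C W a ζ k m j).totalDegree ≤ 2 * 4 ^ k) ∧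
  (∀ (n : ℕ) (m : Fin n → ℤ), m ≠ 0 → 2 * 4 ^ lv m ≤ 8 * ∑ i, (m i).natAbs ^ 2) ∧
  (∀ (n : ℕ) (m : Fin n → ℤ) (i : Fin n), |m i| ≤ 2 ^ lv m)

/-- RELM. A ring homomorphism which is `0` on the ideal `OO` satisfies the relations. Every relation is a
polynomial (write it with `X ⟨t, e⟩` in place of `ζ_e`, `φ = C`; `aeval ζ` of it is the relation for `ζ`,
`asm`, `sy`, `pr` being compatible with ring homomorphisms), and it belongs to `OO`: at a point `z`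
with `TP`, `pr e = σ_e (ez).xRep`. `zero`: `(0).xRep 1 = 0`. `quad`: by ASM (1) `asm (sy (pr e) (pr e'))` is
proportional to `sy (X,Z) (X',Z')`, `(X,Z) = ((e+e')z).xRep`: `XX'Z² - (XZ'+ZX')XZ + ZZ'X² = 0`.
`mnr`: `asm (sy (pr e) (pr e'))` and `sy (pr e₁) (pr e₂)` are proportional to
`sy ((e+e')z).xRep ((e-e')z).xRep`. Assume ASM. -/
def G_RELM : Prop := ∀ (K : Type) [Field K] (B : Type) (W : B → Affine K) [∀ t, (W t).IsElliptic]
  (n : B → ℕ) (a : ∀ t, EE (n t) → Bool) (Ω : Type) [Field Ω] [Algebra K Ω] (ζ : VX n → Ω),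
  (∀ g ∈ OO W n a, aeval ζ g = 0) →
    ∀ t, RLP (algebraMap K Ω) (W t) (a t) (fun e => ζ ⟨t, e⟩)

/-- CHT. Charts. (1) For every point `z` and every absolute value `v` take `a e = true`, `ζ_e = x(ez)` if
`ez ≠ 0` and `|x(ez)| ≤ 1`, otherwise `a e = false`, `ζ_e = 1/x(ez)` (`0` if `ez = 0`). (2) For a point with
`z_i ≠ 0`: `a e = true`, `ζ_e = x(ez)` whenever `ez ≠ 0`. `vz (vec (un i)) z = z i`. -/
def G_CHT : Prop := ∀ (K : Type) [Field K] [DecidableEq K] (W : Affine K) (n : ℕ)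
  (z : Fin n → W.Point),
  (∀ v : AbsoluteValue K ℝ, ∃ (a : EE n → Bool) (ζ : EE n → K), TP a ζ z ∧ ∀ e, v (ζ e) ≤ 1) ∧
  ((∀ i, z i ≠ 0) → ∃ (a : EE n → Bool) (ζ : EE n → K), TP a ζ z ∧
    ∀ i, a (un i) = true ∧ ζ (un i) = xc (z i)) ∧
  ∀ i, vz (vec (un i)) z = z i

/-! ## Block D: dimension count -/

/-- DIM. Let `T` be given by `CodimGT` for the normalized pairs of the unit vectors (`(x,1)` or `(1,0)`; the
value of `hv` is multiplied by a nonzero factor, HVB (3)). Let `L` be the (relative) algebraic closure of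
`K(T)` in `Ω`. Claim: all `ζ_e ∈ L`. Induction on the number of nonzero entries of `e`. `e = 0`: relation
`zero` gives `ζ_0 = 0`. `e = un i`: `ζ_e = x` or `x⁻¹` or `0`. `pr (-e)` is proportional to `pr e`: relation
`mnr` for `(0, e; e, -e)`, with `pr 0 = (1,0)`, `pr e = (X,Z)`: `asm (X,Z,0) = (X², 2XZ, Z²) = sy (pr e) (pr e)`,
ASM (4). Step: `e = e' + e''`, `e'' = ± un i`, `e'` with fewer nonzero entries: relation `quad` with the
coefficients `(s,t,u) = asm (sy (pr e') (pr e'')) ∈ L³`, not all `0` (ASM (3), (4)); with `pr e = (ζ,1)`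
or `(1,ζ)` it is a nontrivial quadratic (or linear) equation `s - tζ + uζ² = 0` or `sζ² - tζ + u = 0`:
so `ζ` is algebraic over `L`, `ζ ∈ L`. Assume ASM, HVB. -/
def G_DIM : Prop := ∀ (K : Type) [Field K] (B : Type) [Fintype B] (W : B → Affine K)
  [∀ t, (W t).IsElliptic] (n : B → ℕ) (a : ∀ t, EE (n t) → Bool) (Ω : Type) [Field Ω] [Algebra K Ω]
  (ζ : VX n → Ω), (∀ t, RLP (algebraMap K Ω) (W t) (a t) (fun e => ζ ⟨t, e⟩)) →
  ∀ (ι : Type) (D s : ℕ) (f : ι → MvPolynomial (IX n) K), (∀ j i, degreeOf i (f j) ≤ D) →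
  CodimGT D f s →
  (∀ j, hv (algebraMap K Ω) (fun _ => D) (f j) (fun i => pr (a i.1) (fun e => ζ ⟨i.1, e⟩) (un i.2)) = 0) →
  ∃ T : Finset Ω, T.card + s < Fintype.card (IX n) ∧
    ∀ i, IsAlgebraic (IntermediateField.adjoin K (T : Set Ω)) (ζ i)

/-- HILB. Hilbert function: if the zero set of `I` has dimension `≤ d` then the polynomials of degree
`≤ R` modulo `I` have dimension `≤ C R^d`. Proof. (1) For every `J ⊂ V` with `d+1` elements there is
`E_J ∈ I`, `E_J ≠ 0`, which contains only the variables `X_j`, `j ∈ J`: otherwise (`Ideal.exists_le_prime_disjoint`,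
for the multiplicative set of the nonzero polynomials in the `X_j`, `j ∈ J`) there is a prime `P ⊃ I` such
that the classes of the `X_j`, `j ∈ J`, in `Ω = Frac(K[X]/P)` are algebraically independent; but they are
algebraic over `K(T)`, `|T| ≤ d`. (2) A linear order on `V` and the monomial order `degLex`: let `μ_J` be the
degree of `E_J`, a monomial in the variables `J`, and `e = 1 + max` of all exponents of the `μ_J`. Division
(`MonomialOrder.div`, `MonomialOrder.degLex`, `degree_degLexDegree`): every `p` with `totalDegree p ≤ R` is modulo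
`I` a combination of monomials of total degree `≤ R` which are not `≥ μ_J` for any `J`. In such a monomial
at most `d` exponents are `≥ e` (otherwise choose `J` among these variables): there are at most
`C(|V|, d)... ≤ 2^|V| (R+1)^d (e+1)^|V| ≤ C R^d` such monomials. (3) So the image `U` of
`{p : totalDegree p ≤ R}` in `K[X]/I` has dimension `≤ C R^d`; take an injective linear map
`U → K^(C R^d)`, extend it to `K[X]/I` and compose it with the projection. -/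
def G_HILB : Prop := ∀ (K : Type) [Field K] (V : Type) [Finite V] (I : Ideal (MvPolynomial V K))
  (d : ℕ), (∀ (Ω : Type) [Field Ω] [Algebra K Ω] (ζ : V → Ω), (∀ g ∈ I, aeval ζ g = 0) →
    ∃ T : Finset Ω, T.card ≤ d ∧ ∀ i, IsAlgebraic (IntermediateField.adjoin K (T : Set Ω)) (ζ i)) →
  ∃ c : ℕ, ∀ R : ℕ, 1 ≤ R → ∃ L : MvPolynomial V K →ₗ[K] (Fin (c * R ^ d) → K),
    ∀ p, p.totalDegree ≤ R → L p = 0 → p ∈ I

/-- FEX. Existence of the auxiliary polynomial. For every chart `a` (finitely many) apply HILB to `IA .. a` with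
`d = |σ| - (s+1)`: the hypothesis holds by RELM and DIM (`aeval ζ` of `ft` is the value in DIM, HVB (5)).
Let `C` be the sum of the constants `c_a`. The `F` with `degreeOf i F ≤ E_i` are parametrized linearly by
the functions `∏_i Fin (E_i + 1) → K`; `Ft` is linear in `F` (HVB (1), (2)) and
`totalDegree (Ft F) ≤ Σ E_i 8 |m_i|² ≤ R` (HVB (7), DEGR). The linear map `F ↦ (L_a (Ft a F))_a` into a space of
dimension `≤ C R^d` has a nonzero kernel. Assume HVB, DEGR, RELM, DIM, HILB. -/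
def G_FEX : Prop := ∀ (K : Type) [Field K] (B : Type) [Fintype B] (W : B → Affine K)
  [∀ t, (W t).IsElliptic] (n : B → ℕ) (s : ℕ) (ι : Type) [Fintype ι] (D : ℕ)
  (f : ι → MvPolynomial (IX n) K), (∀ j i, degreeOf i (f j) ≤ D) → CodimGT D f s →
  ∃ c : ℕ, ∀ (m : ∀ t, Fin (n t) → Fin (n t) → ℤ) (E : IX n → ℕ) (R : ℕ), 1 ≤ R →
    (∀ t j, m t j ≠ 0) → (∑ i : IX n, E i * (8 * ∑ k, (m i.1 i.2 k).natAbs ^ 2) ≤ R) →
    c * R ^ (Fintype.card (IX n) - (s + 1)) < ∏ i, (E i + 1) →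
    ∃ F : MvPolynomial (IX n) K, F ≠ 0 ∧ (∀ i, degreeOf i F ≤ E i) ∧
      ∀ a, Ft W n a E m F ∈ IA W n a D f

/-- EMP. If the centre is empty then `1` belongs to its ideal: otherwise there is a maximal ideal `P ⊃ IA`,
`Ω = K[ζ]/P`, and DIM (with RELM) gives `T` with `|T| + s < |σ|`. Assume RELM, DIM, HVB. -/
def G_EMP : Prop := ∀ (K : Type) [Field K] (B : Type) [Fintype B] (W : B → Affine K)
  [∀ t, (W t).IsElliptic] (n : B → ℕ) (s : ℕ) (ι : Type) [Fintype ι] (D : ℕ)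
  (f : ι → MvPolynomial (IX n) K), (∀ j i, degreeOf i (f j) ≤ D) → CodimGT D f s →
  Fintype.card (IX n) ≤ s → ∀ a, (1 : MvPolynomial (VX n) K) ∈ IA W n a D f

/-! ## Block E: the main estimate -/

/-- LSZ. Lower bound for the pairs `rp`. Induction on `k`. `k = 0`: the pair is `(ζ,1)` or `(1,ζ)`, so the
maximum is `≥ 1`. Step: notation of VAL, `P, Q` the pairs of `m'`, `m''`, `r = pr e`, `|r| = 1` (as `|ζ_e| ≤ 1`).
By VAL and ASM (1), (2) `asm (sy P Q) = κ sy (mz).xRep r` for some `κ`, and the new pair is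
`dad .. = κ (mz).xRep` (see VAL), so `|asm (sy P Q)| ≤ cst v 2 * |dad ..| * |r|`. By ASM (5)
`1 ≤ exp(2 c_k(v))² ..`: `(|P||Q|)² ≤ exp(c v) |asm (sy P Q)| ≤ exp(c v) cst v 2 |dad ..|`, and
`|P|, |Q| ≥ exp(-c_k v)`. So `c_(k+1) = 4 c_k + c + log (cst v 2)`. Assume ASM, VAL. -/
def G_LSZ : Prop := ∀ (K : Type) [Field K] [AdmissibleAbsValues K] [DecidableEq K] (W : Affine K)
  [W.IsElliptic] (n k : ℕ), ∃ c : AbsoluteValue K ℝ → ℝ, FS c ∧ (∀ v, 0 ≤ c v) ∧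
    ∀ (v : AbsoluteValue K ℝ) (a : EE n → Bool) (ζ : EE n → K) (z : Fin n → W.Point)
    (m : Fin n → ℤ), (∀ e, v (ζ e) ≤ 1) → TP a ζ z → (∀ i, |m i| ≤ 2 ^ k) →
    1 ≤ Real.exp (c v) * max (v (rp (RingHom.id K) W a ζ k m 0)) (v (rp (RingHom.id K) W a ζ k m 1))

/-- EST. The main estimate. For every chart `a`: `Ft a F = g + Σ_j h_(a,j) ft a f_j`, `g ∈ OO a`. Let `z` be as in
the statement, `x = x(z)`, `u_i` = the pair `xRep` of `m_i z`, `|u_i|_v = Mv v (xc (m_i z))` (also if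
`m_i z = 0`). Let `v` be a place. CHT (1) (in every block): a chart `a` and `ζ` with `TP`, `|ζ| ≤ 1`. The
pair of `un i` is `κ_i (x_i, 1)`, of maximum `1`, so `|κ_i| Mv v x_i = 1` and (HVB (3), (4), (5))
`|aeval ζ (ft a f_j)| = |f_j(x)| / Mx^D`. `|aeval ζ h_(a,j)| ≤ exp(c₁ v)` (`|ζ| ≤ 1`: at most
`cst v (number of terms) * max |coefficients|`), `aeval ζ g = 0` (definition of `OO` with `Ω = K`, `W' = W`).
`aeval ζ (Ft a F) = hv id E F (rp ..)`, and by VAL `rp .. = ρ_i u_i`, `|ρ_i||u_i| ≥ exp(-c₂ v)` (LSZ), so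
`|F(u)| = |aeval ζ (Ft a F)| / ∏|ρ_i|^(E_i) ≤ exp(c₃ v) ∏ |u_i|^(E_i) max_j|f_j(x)| / Mx^D`, `F(u) := hv id E F u ≠ 0`.
Hence `Mx^D / max_j|f_j(x)| ≤ exp(c₃ v) ∏|u_i|^(E_i) / |F(u)|`, and `|F(u)| ≤ exp(c₄ v) ∏ |u_i|^(E_i)` (HVB (6)): so
`log⁺(Mx^D / max_j|f_j(x)|) ≤ c₅ v + Σ E_i log|u_i|_v - log|F(u)|_v`. Sum over the places:
`PS (log|F(u)|) = 0`, `PS (log|u_i|) = hx (m_i z)` (`PS_log_Mv`). Assume HVB, VAL, LSZ, CHT, DEGR. -/
def G_EST : Prop := ∀ (K : Type) [Field K] [NumberField K] [DecidableEq K] (B : Type) [Fintype B]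
  (W : B → Affine K) [∀ t, (W t).IsElliptic] (n : B → ℕ) (ι : Type) [Fintype ι] (D : ℕ)
  (f : ι → MvPolynomial (IX n) K), (∀ j i, degreeOf i (f j) ≤ D) →
  ∀ (m : ∀ t, Fin (n t) → Fin (n t) → ℤ) (E : IX n → ℕ) (F : MvPolynomial (IX n) K),
  (∀ i, degreeOf i F ≤ E i) → (∀ a, Ft W n a E m F ∈ IA W n a D f) → ∃ c : ℝ, 0 ≤ c ∧
    ∀ z : ∀ t, Fin (n t) → (W t).Point, (∀ t i, z t i ≠ 0) →
    hv (RingHom.id K) E F (fun i => (vz (m i.1 i.2) (z i.1)).xRep) ≠ 0 →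
    cH D f (fun i => xc (z i.1 i.2)) ≤ ∑ i : IX n, E i * hx (vz (m i.1 i.2) (z i.1)) + c

/-! ## Block G: generic points -/

/-- IND. Generic points are linearly independent. Suppose `Σ m_j z_j = 0`, `m_i ≠ 0`. `L` = algebraic closure of
`K(x(z_j) : j ≠ i)` in `Ω`, `H` the subgroup of G_GRP. `z_j ∈ H` for `j ≠ i`, so `m_i z_i ∈ H`. Division: if
`k ≥ 1`, `k P ∈ H`, `P ≠ 0` then `P ∈ H`: MUL, `A(x) = σ X`, `B(x) = σ Z`, `(X,Z) = (kP).xRep`; if `kP ≠ 0`, `x = x(P)` is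
a root of the monic polynomial `A - xc(kP) B ∈ L[X]`; if `kP = 0`: `B(x) = 0` and `B ≠ 0` (if `B = 0` then `A`, of
degree `k² ≥ 1`, has a root `x' = x(P')`, `P' ≠ 0`, and `(A,B)(x') = 0`, contradiction to MUL). So `x(z_i) ∈ L`,
contradiction to the independence. Assume MUL, GRP (state the division lemma separately, for GIN). -/
def G_IND : Prop := ∀ (K Ω : Type) [Field K] [Field Ω] [DecidableEq Ω] [Algebra K Ω]
  [IsAlgClosed Ω] (W : Affine K) [W.IsElliptic] (W' : Affine Ω), W' = W.map (algebraMap K Ω) →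
  (∀ (n : ℕ) (z : Fin n → W'.Point), (∀ i, z i ≠ 0) → AlgebraicIndependent K (fun i => xc (z i)) →
    ∀ m : Fin n → ℤ, m ≠ 0 → vz m z ≠ 0) ∧
  (∀ (L : IntermediateField K Ω), (∀ x : Ω, IsAlgebraic L x → x ∈ L) →
    ∀ (k : ℤ) (P : W'.Point), k ≠ 0 → xc (k • P) ∈ L → xc P ∈ L)

/-- TRD. `K(η)` has transcendence degree `≥ |σ|` and is generated by `|σ|` elements. -/
def G_TRD : Prop := ∀ (K Ω : Type) [Field K] [Field Ω] [Algebra K Ω] (σ : Type) [Fintype σ]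
  (ζ η : σ → Ω), AlgebraicIndependent K ζ →
  (∀ i, IsAlgebraic (IntermediateField.adjoin K (Set.range η)) (ζ i)) → AlgebraicIndependent K η

/-- GIN. (1) IND in every block (a subfamily of an independent family is independent, `m t j ≠ 0`). (2) Let `L` be
the algebraic closure in `Ω` of `K(u)`, `u_i = x(m_i z)`, `H_t` the subgroups of GRP; `m_(t,j) z_t ∈ H_t`; with
`Δ_t = det(m_t) ≠ 0` and the adjugate matrix `Δ_t z_(t,k) ∈ H_t`, so `x(z_(t,k)) ∈ L` (IND (2)). Now TRD. -/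
def G_GIN : Prop := ∀ (K Ω : Type) [Field K] [Field Ω] [DecidableEq Ω] [Algebra K Ω]
  [IsAlgClosed Ω] (B : Type) [Fintype B] (W : B → Affine K) [∀ t, (W t).IsElliptic]
  (W' : B → Affine Ω), (∀ t, W' t = (W t).map (algebraMap K Ω)) → ∀ (n : B → ℕ)
  (z : ∀ t, Fin (n t) → (W' t).Point), (∀ t i, z t i ≠ 0) →
  AlgebraicIndependent K (fun i : IX n => xc (z i.1 i.2)) →
  ∀ m : ∀ t, Fin (n t) → Fin (n t) → ℤ, (∀ t, LinearIndependent ℤ (m t)) →
    (∀ t j, vz (m t j) (z t) ≠ 0) ∧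
    AlgebraicIndependent K (fun i : IX n => xc (vz (m i.1 i.2) (z i.1)))

/-- GTP. A generic solution of the relations is a point. Notation: `a ~ b` for proportional nonzero pairs.
`n = 0`: clear. The `ζ (un i)` are not `0`, so `pr (un i) ~ (x_i, 1)`, `x_i = ζ` or `ζ⁻¹`; the `x_i` are
algebraically independent (TRD); `x_i = x(Q_i)`, `Q_i ∈ W'(Ω)`. (Q) Relation `quad`: if `pr e ~ P.xRep`,
`pr e' ~ Q.xRep` then `pr (e+e') ~ (P+Q).xRep` or `~ (P-Q).xRep` (ASM (1)). (N) `pr (-e) ~ pr e`, see DIM.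
(M) Relation `mnr`: if `pr e ~ P.xRep`, `pr e' ~ Q.xRep`, `pr (e+e') ~ (P+Q).xRep` then
`pr (e-e') ~ (P-Q).xRep` and conversely (ASM (4)). `(P.xRep ~ Q.xRep` iff `P = ±Q`, XEQ.)
Signs: `z_0 = Q_0`; by (Q) `pr (un 0 + un i) ~ (Q_0 ± Q_i).xRep`: put `z_i = ± Q_i`. IND: `vz m z ≠ 0` for
`m ≠ 0`. Claim: `pr e ~ (ez).xRep` for all `e`. One nonzero entry: clear with (N); `e = 0`: `zero`.
Two entries, in the places `0, i`: (N), (M). Two entries `i, j ≠ 0`: `un i - un j = (un 0 + un i) - (un 0 + un j)`,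
(Q): `pr (un i - un j) ~ (z_i - z_j)` or `~ (2z_0 + z_i + z_j)`, and by (Q) for `un i, -un j` it is `~ (z_i - z_j)` or
`~ (z_i + z_j)`: if it is not `~ (z_i - z_j)` then `2z_0 + z_i + z_j = ±(z_i + z_j)`, contradiction to IND. Then (M)
for `un i + un j`. At least three entries (induction on their number): for `k` in the support,
`e = (e - e_k u_k) + e_k u_k`, (Q): `pr e ~ (ez)` or `~ ((e - 2 e_k u_k) z)`. If it is not `~ (ez)` take `k ≠ l` in the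
support: `(e - 2 e_k u_k) z = ± (e - 2 e_l u_l) z`, so (IND) `e - 2 e_k u_k = ± (e - 2 e_l u_l)`; `+` gives `k = l`; `-` gives
`e = e_k u_k + e_l u_l`, two nonzero entries. Assume ASM, IND, TRD. -/
def G_GTP : Prop := ∀ (K Ω : Type) [Field K] [Field Ω] [DecidableEq Ω] [Algebra K Ω]
  [IsAlgClosed Ω] (W : Affine K) [W.IsElliptic] (W' : Affine Ω), W' = W.map (algebraMap K Ω) →
  ∀ (n : ℕ) (a : EE n → Bool) (ζ : EE n → Ω), RLP (algebraMap K Ω) W a ζ →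
  AlgebraicIndependent K (fun i => ζ (un i)) → ∃ z : Fin n → W'.Point, TP a ζ z

/-- ZEL. The excluded set is contained in a hypersurface. For a chart `a` let `b` be the ideal generated by `OO a`
and `Ft a F`. Claim: there is `Z_a ≠ 0` in `K[x_i]` with `Z_a(ζ_(t, un i)) ∈ b`. Otherwise
(`Ideal.exists_le_prime_disjoint`) there are a prime `P ⊃ b` and `Ω` = algebraic closure of `Frac(K[ζ]/P)`, in
which the `ζ_(t, un i)` are algebraically independent. RELM, GTP in every block: points `z_t` with `TP`;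
`z_(t,i) ≠ 0`, `x(z_(t,i)) = ζ` or `ζ⁻¹` (the pair `(1,ζ)`, `ζ ≠ 0`), independent by TRD; GIN: the `u_i = x(m_i z)` are
independent, `m_i z ≠ 0`. The value of `Ft a F` at `ζ` is `hv E F (rp ..)`, `rp .. = ρ_i (u_i, 1)` (VAL, DEGR (3)),
`= ∏ρ_i^(E_i) F(u) ≠ 0` (HVB), but `Ft a F ∈ P`. `Z = ∏_a Z_a`. Let `z` be a `K`-point, `z_(t,i) ≠ 0`, `F(u) = 0`;
take the chart CHT (2) (in every block): `ζ (un i) = x_i`. Elements of `OO a` vanish at `ζ` (`Ω = K`), and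
`Ft a F` has the value `∏ρ_i^(E_i) hv id E F u = 0`. So `Z_a(x) = 0`. Assume RELM, GTP, GIN, TRD, VAL, HVB, CHT, DEGR. -/
def G_ZEL : Prop := ∀ (K : Type) [Field K] [DecidableEq K] (B : Type) [Fintype B]
  (W : B → Affine K) [∀ t, (W t).IsElliptic] (n : B → ℕ)
  (m : ∀ t, Fin (n t) → Fin (n t) → ℤ), (∀ t, LinearIndependent ℤ (m t)) →
  ∀ (E : IX n → ℕ) (F : MvPolynomial (IX n) K), F ≠ 0 → (∀ i, degreeOf i F ≤ E i) →
  ∃ Z : MvPolynomial (IX n) K, Z ≠ 0 ∧ ∀ z : ∀ t, Fin (n t) → (W t).Point, (∀ t i, z t i ≠ 0) →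
    eval (fun i => xc (z i.1 i.2)) Z ≠ 0 →
    hv (RingHom.id K) E F (fun i => (vz (m i.1 i.2) (z i.1)).xRep) ≠ 0

/-! ## Block H: geometry of numbers -/

/-- HERM. Hermite reduction. Induction on `n`. `n = 0`: `C = 1`. Step (`n+1`): `q(x) = xᵀAx`. There are only
finitely many integer vectors with `q ≤ c` (`q(x) ≥ λ|x|²`), so there is a nonzero integer vector `w` of minimal
value `α = q(w) > 0`; it is primitive. Complete `w` to a basis `w = u_0, .., u_n` of `ℤ^(n+1)` (the quotient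
`ℤ^(n+1)/ℤw` is torsion free and finitely generated, so free of rank `n`; lift a basis; e.g.
`Module.Basis.mkFinCons`); `U` = matrix with the columns `u_j`, `det U = ± 1`; `A' = UᵀAU` is positive definite,
`det A' = det A`, `A'_00 = α`. Schur complement: `A''_ij = A'_ij - A'_i0 A'_0j / α` (`i, j ≥ 1`) is positive definite,
`det A' = α det A''`, and `q'(c, y) = q''(y) + α (c + Σ A'_0i y_i / α)²`. By induction `y_1..y_n` linearly
independent with `∏ q''(y_j) ≤ C_n det A''`. Let `c_j` be the integer nearest to `- Σ_i A'_0i (y_j)_i / α`,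
`x_j = (c_j, y_j)`: `q'(x_j) ≤ q''(y_j) + α/4`, and `q'(x_j) ≥ α` (`x_j ≠ 0`, minimality), so
`q'(x_j) ≤ (4/3) q''(y_j)`. The vectors `w, U x_1, .., U x_n` are linearly independent and the product is
`≤ α (4/3)^n C_n det A'' = (4/3)^n C_n det A`. (Alternative: Minkowski's theorem for the parallelepiped
`|y_j(x)| ≤ c λ_j` of a basis of successive minima.) -/
def G_HERM : Prop := ∀ n : ℕ, ∃ c : ℝ, 1 ≤ c ∧ ∀ A : Matrix (Fin n) (Fin n) ℝ, A.PosDef →
  ∃ m : Fin n → Fin n → ℤ, LinearIndependent ℤ m ∧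
    ∏ j, (∑ k, ∑ l, A k l * (m j k : ℝ) * (m j l : ℝ)) ≤ c * A.det

/-- GDET. `B(x,y) = (H(x+y) - H(x) - H(y))/2` is biadditive (QSN argument, see `BL/QSN.lean`, `PACK`),
`G_ij = B(z_i, z_j)/N`, `A = 1 + θ G`. (1) the formula. (2) `G` is positive semidefinite: `xᵀGx ≥ 0` for integer `x`
(`H ≥ 0`), rational `x` (scaling), real `x` (continuity); so `A` is positive definite. (3) `G` has rank `≤ s`: choose a
maximal linearly independent subfamily `z_k`, `k ∈ S`, `|S| ≤ s`; for every `i` there are integers `c_i ≠ 0`, `a_ik` with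
`c_i z_i = Σ_(k ∈ S) a_ik z_k`, so row `i` of `G` is `Σ (a_ik/c_i)` row `k`. Eigenvalues `λ_i ≥ 0` with sum `trace G ≤ 1`, at
most `s` of them are `≠ 0` (`Matrix.IsHermitian.rank_eq_card_non_zero_eigs`), so
`det A = ∏ (1 + θ λ_i) ≤ (1 + θ)^s`. -/
def G_GDET : Prop := ∀ (G : Type) [AddCommGroup G] (H : G → ℝ), IsQuad H → ∀ (n s : ℕ)
  (z : Fin n → G), Set.finrank ℤ (Set.range z) ≤ s → ∀ (N θ : ℝ), 0 < N → ∑ i, H (z i) ≤ N →
  0 ≤ θ → ∃ A : Matrix (Fin n) (Fin n) ℝ, A.PosDef ∧ A.det ≤ (1 + θ) ^ s ∧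
    ∀ m : Fin n → ℤ, ∑ k, ∑ l, A k l * (m k : ℝ) * (m l : ℝ) =
      ∑ k, (m k : ℝ) ^ 2 + θ * H (vz m z) / N

/-! ## The theorem -/

/-- UN. The theorem. Notation: `N₀ = |σ|`, `σ = IX n`; `s'_t = min(s_t, n_t)`, `s' = Σ s'_t`; the rank of `z_t` is `≤ s'_t`,
and `CodimGT D f s'`. Canonical heights `H_t`, `|H_t - hx| ≤ c₀` (`CAN`, proved in `BL`).
Case `s' ≥ N₀`: EMP: `1 ∈ IA` for all charts; EST with `F = 1`, `E = 0`, `m = 0` (`Ft = 1`, `hv = 1`): `cH ≤ C`, `Z = 1`.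
Case `s' < N₀`: `d = N₀ - (s'+1)`. `c_F` from FEX (for `s'`), `c_H = ∏_t` of the constants of HERM. Natural numbers
`κ ≥ c_F (8 N₀)^d c_H 2^(s') + 1`, `τ ≥ 2`, `2 N₀ κ / τ ≤ δ`, `θ = τ^(s'+1)`, `R' = κ τ^(s')`, `R = 8 N₀ R'`.
`P = c_H (1+θ)^(s') ≤ c_H (2θ)^(s')`. For all `(m, E)`, `m` with entries `≤ P` in absolute value, `E_i ≤ R'`
(finitely many), for which the rows of all `m_t` are linearly independent and there is `F ≠ 0`, `deg ≤ E`,
`Ft a F ∈ IA a` for all `a`: choose `F`; `C_(m,E)` from EST and `Z_(m,E)` from ZEL. `Z` is the product of the `Z_(m,E)`, `C₁` the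
maximum of the `C_(m,E)`. Let `z` be as in the statement, `N = 1 + Σ_t Σ_i H_t(z_(t,i))`,
`q_t(x) = |x|² + θ H_t(x z_t)/N`. GDET, HERM in every block: independent `m_(t,j)` with
`∏_(t,j) q_t(m_(t,j)) ≤ c_H (1+θ)^(s') = P`. As `q ≥ 1` on nonzero integer vectors, every `q_i := q_t(m_(t,j)) ≤ P`, so
`|entries| ≤ P`. `E_i = ⌊R'/q_i⌋ ≤ R'`. `E_i |m_i|² ≤ E_i q_i ≤ R'`, so `Σ E_i 8|m_i|² ≤ 8 N₀ R' = R`;
`∏(E_i+1) > ∏ R'/q_i ≥ R'^(N₀)/P` (`N₀ ≥ 1`), and `c_F R^d P ≤ c_F (8N₀)^d R'^d c_H 2^(s') τ^((s'+1)s') ≤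
R'^d κ^(s'+1) τ^(s'(s'+1)) = R'^(d+s'+1) = R'^(N₀)`: FEX applies, `F` exists. EST and ZEL:
`cH ≤ Σ E_i hx(m_i z) + C₁ ≤ Σ E_i (H(m_i z) + c₀) + C₁`, `E_i H(m_i z) ≤ (R'/q_i)(q_i N/θ) = R' N/θ = κN/τ`, so
`cH ≤ N₀ κ N/τ + C₂ ≤ (δ/2) N + C₂`, `N ≤ 1 + Σ (hx(z_(t,i)) + c₀)`. Assume FEX, EMP, EST, ZEL, HERM, GDET, DEGR. -/
def G_UN : Prop := ∀ (K : Type) [Field K] [NumberField K] [DecidableEq K] (B : Type) [Fintype B]
  (W : B → Affine K) [∀ t, (W t).IsElliptic] (n s : B → ℕ) (ι : Type) [Fintype ι] (D : ℕ)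
  (f : ι → MvPolynomial (IX n) K), (∀ j i, degreeOf i (f j) ≤ D) → CodimGT D f (∑ t, s t) →
  ∀ δ : ℝ, 0 < δ → ∃ (Z : MvPolynomial (IX n) K) (c : ℝ), Z ≠ 0 ∧ 0 ≤ c ∧
    ∀ z : ∀ t, Fin (n t) → (W t).Point, (∀ t i, z t i ≠ 0) →
    (∀ t, Set.finrank ℤ (Set.range (z t)) ≤ s t) → eval (fun i => xc (z i.1 i.2)) Z ≠ 0 →
    cH D f (fun i => xc (z i.1 i.2)) ≤ δ * ∑ t, ∑ i, hx (z t i) + c

end

end Pool.Agent.Helper5.UN
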