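import Pool.Agent.Helper5.UN.EMP
import Pool.Agent.Helper18.RO.HVAL

/-!
# Project UN: the goal `RELM`
-/

namespace Pool.Agent.Helper5.UN

open WeierstrassCurve MvPolynomial Pool.Agent.Helper29.BL Pool.Agent.Helper5.RO

theorem vz_add {G : Type} [AddCommGroup G] {n : ℕ} (z : Fin n → G) (m m' m'' : Fin n → ℤ)
    (h : ∀ i, m'' i = m i + m' i) : vz m'' z = vz m z + vz m' z := by
  unfold vz
  rw [← Finset.sum_add_distrib]
  refine Finset.sum_congr rfl fun i _ => ?_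
  rw [h, add_smul]

theorem vz_sub {G : Type} [AddCommGroup G] {n : ℕ} (z : Fin n → G) (m m' m'' : Fin n → ℤ)
    (h : ∀ i, m'' i = m i - m' i) : vz m'' z = vz m z - vz m' z := by
  unfold vz
  rw [← Finset.sum_sub_distrib]
  refine Finset.sum_congr rfl fun i _ => ?_
  rw [h, sub_smul]

theorem vec_zero {n : ℕ} : vec (0 : EE n) = 0 := by
  funext i
  simp [vec]

/-- The relations hold at a point. -/
theorem tp_rlp (hASM : G_ASM) {K Ω : Type} [Field K] [Field Ω] [DecidableEq Ω] (φ : K →+* Ω)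
    (W : Affine K) [W.IsElliptic] (W' : Affine Ω) (hW' : W' = W.map φ) {n : ℕ} (a : EE n → Bool)
    (ζ : EE n → Ω) (z : Fin n → W'.Point) (h : TP a ζ z) : RLP φ W a ζ := by
  obtain ⟨h1, h2, -, -, -⟩ := hASM
  have hasm : ∀ e e' : EE n, ∃ k : Ω, asm φ W (sy (pr a ζ e) (pr a ζ e')) =
      k • sy (vz (vec e) z + vz (vec e') z).xRep (vz (vec e) z - vz (vec e') z).xRep := by
    intro e e'
    obtain ⟨σ, -, hσ⟩ := h e
    obtain ⟨σ', -, hσ'⟩ := h e'
    obtain ⟨c, -, hc⟩ := h1 K Ω φ W W' hW' (vz (vec e) z) (vz (vec e') z)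
    refine ⟨(σ * σ') ^ 2 * c, ?_⟩
    rw [hσ, hσ', (h2 K Ω φ W σ σ' 0 _ _).2, (h2 K Ω φ W (σ * σ') 0 _ 0 0).1, hc, smul_smul]
  refine ⟨?_, fun e e' e'' he => ?_, fun e e' e₁ e₂ he₁ he₂ i j => ?_⟩
  · obtain ⟨σ, -, hσ⟩ := h 0
    rw [hσ, vec_zero]
    have : vz (0 : Fin n → ℤ) z = 0 := by simp [vz]
    rw [this]
    simp
  · obtain ⟨k, hk⟩ := hasm e e'
    obtain ⟨σ, -, hσ⟩ := h e''
    rw [hk, hσ, vz_add z _ _ _ he]
    simp only [Pi.smul_apply, smul_eq_mul, sy, Matrix.cons_val_zero, Matrix.cons_val_one,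
      Matrix.cons_val]
    ring
  · obtain ⟨k, hk⟩ := hasm e e'
    obtain ⟨σ₁, -, hσ₁⟩ := h e₁
    obtain ⟨σ₂, -, hσ₂⟩ := h e₂
    rw [hk, hσ₁, hσ₂, (h2 K Ω φ W σ₁ σ₂ 0 _ _).2, vz_add z _ _ _ he₁, vz_sub z _ _ _ he₂]
    simp only [Pi.smul_apply, smul_eq_mul]
    ring

theorem map_asm_pr {R S T : Type} [CommRing R] [CommRing S] [CommRing T] (φ : R →+* S)
    (g : S →+* T) (W : WeierstrassCurve R) {n : ℕ} (a : EE n → Bool) (ζ : EE n → S) (e e' : EE n)
    (j : Fin 3) : g (asm φ W (sy (pr a ζ e) (pr a ζ e')) j) =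
      asm (g.comp φ) W (sy (pr a (fun e => g (ζ e)) e) (pr a (fun e => g (ζ e)) e')) j := by
  rw [Helper18.RO.map_asm]
  congr 1
  funext i
  rw [Helper18.RO.map_sy]
  congr 1 <;> (funext l; rw [map_pr])

theorem map_sy_pr {S T : Type} [CommRing S] [CommRing T]
    (g : S →+* T) {n : ℕ} (a : EE n → Bool) (ζ : EE n → S) (e e' : EE n)
    (j : Fin 3) : g (sy (pr a ζ e) (pr a ζ e') j) =
      sy (pr a (fun e => g (ζ e)) e) (pr a (fun e => g (ζ e)) e') j := by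
  rw [Helper18.RO.map_sy]
  congr 1 <;> (funext l; rw [map_pr])

theorem gRELM (hASM : G_ASM) : G_RELM := by
  intro K _ B W _ n a Ω _ _ ζ hζ t
  classical
  let Xt : EE (n t) → MvPolynomial (VX n) K := fun e => X ⟨t, e⟩
  have hcomp : ∀ (Ω : Type) [Field Ω] [Algebra K Ω] (ζ : VX n → Ω),
      ((aeval ζ : MvPolynomial (VX n) K →ₐ[K] Ω) : MvPolynomial (VX n) K →+* Ω).comp C =
        algebraMap K Ω := by
    intro Ω _ _ ζ
    ext x
    simp
  have hX : ∀ (Ω : Type) [Field Ω] [Algebra K Ω] (ζ : VX n → Ω) (e : EE (n t)),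
      ((aeval ζ : MvPolynomial (VX n) K →ₐ[K] Ω) : MvPolynomial (VX n) K →+* Ω) (Xt e) =
        ζ ⟨t, e⟩ := by
    intro Ω _ _ ζ e
    simp [Xt]
  -- values of the three kinds of polynomials
  have v0 : ∀ (Ω : Type) [Field Ω] [Algebra K Ω] (ζ : VX n → Ω) (e : EE (n t)) (j : Fin 2),
      aeval ζ (pr (a t) Xt e j) = pr (a t) (fun e => ζ ⟨t, e⟩) e j := by
    intro Ω _ _ ζ e j
    have := map_pr ((aeval ζ : MvPolynomial (VX n) K →ₐ[K] Ω) : MvPolynomial (VX n) K →+* Ω)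
      (a t) Xt e j
    simp only [hX] at this
    exact this
  have v1 : ∀ (Ω : Type) [Field Ω] [Algebra K Ω] (ζ : VX n → Ω) (e e' : EE (n t)) (j : Fin 3),
      aeval ζ (asm C (W t) (sy (pr (a t) Xt e) (pr (a t) Xt e')) j) =
        asm (algebraMap K Ω) (W t) (sy (pr (a t) (fun e => ζ ⟨t, e⟩) e)
          (pr (a t) (fun e => ζ ⟨t, e⟩) e')) j := by
    intro Ω _ _ ζ e e' j
    have := map_asm_pr C ((aeval ζ : MvPolynomial (VX n) K →ₐ[K] Ω) :
      MvPolynomial (VX n) K →+* Ω) (W t) (a t) Xt e e' j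
    simp only [hX, hcomp] at this
    exact this
  have v2 : ∀ (Ω : Type) [Field Ω] [Algebra K Ω] (ζ : VX n → Ω) (e e' : EE (n t)) (j : Fin 3),
      aeval ζ (sy (pr (a t) Xt e) (pr (a t) Xt e') j) = sy (pr (a t) (fun e => ζ ⟨t, e⟩) e)
          (pr (a t) (fun e => ζ ⟨t, e⟩) e') j := by
    intro Ω _ _ ζ e e' j
    have := map_sy_pr ((aeval ζ : MvPolynomial (VX n) K →ₐ[K] Ω) :
      MvPolynomial (VX n) K →+* Ω) (a t) Xt e e' j
    simp only [hX] at this
    exact this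
  refine ⟨?_, fun e e' e'' he => ?_, fun e e' e₁ e₂ he₁ he₂ i j => ?_⟩
  · have hmem : pr (a t) Xt 0 1 ∈ OO W n a := by
      intro Ω' _ _ _ W' hW' z ζ' hT
      rw [v0]
      exact (tp_rlp hASM (algebraMap K Ω') (W t) (W' t) (hW' t) (a t) _ (z t) (hT t)).zero
    have := hζ _ hmem
    rw [v0] at this
    exact this
  · have hmem : asm C (W t) (sy (pr (a t) Xt e) (pr (a t) Xt e')) 0 * pr (a t) Xt e'' 1 ^ 2 -
        asm C (W t) (sy (pr (a t) Xt e) (pr (a t) Xt e')) 1 *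
          (pr (a t) Xt e'' 0 * pr (a t) Xt e'' 1) +
        asm C (W t) (sy (pr (a t) Xt e) (pr (a t) Xt e')) 2 * pr (a t) Xt e'' 0 ^ 2 ∈
        OO W n a := by
      intro Ω' _ _ _ W' hW' z ζ' hT
      rw [map_add, map_sub, map_mul, map_mul, map_mul, map_mul, map_pow, map_pow]
      simp only [v0, v1]
      exact (tp_rlp hASM (algebraMap K Ω') (W t) (W' t) (hW' t) (a t) _ (z t) (hT t)).quad
        e e' e'' he
    have := hζ _ hmem
    rw [map_add, map_sub, map_mul, map_mul, map_mul, map_mul, map_pow, map_pow] at this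
    simp only [v0, v1] at this
    exact this
  · have hmem : asm C (W t) (sy (pr (a t) Xt e) (pr (a t) Xt e')) i *
        sy (pr (a t) Xt e₁) (pr (a t) Xt e₂) j -
        asm C (W t) (sy (pr (a t) Xt e) (pr (a t) Xt e')) j *
        sy (pr (a t) Xt e₁) (pr (a t) Xt e₂) i ∈ OO W n a := by
      intro Ω' _ _ _ W' hW' z ζ' hT
      rw [map_sub, map_mul, map_mul, sub_eq_zero]
      simp only [v1, v2]
      exact (tp_rlp hASM (algebraMap K Ω') (W t) (W' t) (hW' t) (a t) _ (z t) (hT t)).mnr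
        e e' e₁ e₂ he₁ he₂ i j
    have := hζ _ hmem
    rw [map_sub, map_mul, map_mul, sub_eq_zero] at this
    simp only [v1, v2] at this
    exact this

end Pool.Agent.Helper5.UN
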